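import Mathlib
import Pool.Agent.H53.Br.Four

open MeasureTheory Set Filter Topology Complex
open scoped Real

namespace H93.Br

open H53.Br

/-- **Wirtinger's inequality with the first modes kept.** -/
theorem wirtZ {T : ℝ} (hT : 0 < T) {v v' : ℝ → ℝ} (hd : ∀ t, HasDerivAt v (v' t) t)
    (hv' : Continuous v') (hper : ∀ t, v (t + T) = v t) (hodd : ∀ t, v (-t) = - v t) (n : ℕ) :
    (n * (2 * π / T)) ^ 2 * ((∫ t in (0 : ℝ)..T, v t ^ 2)
      - (1 / T) * ∑ k ∈ Finset.Ioo (-(n : ℤ)) n, (sc T v k) ^ 2)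
      + (1 / T) * ∑ k ∈ Finset.Ioo (-(n : ℤ)) n, (k * (2 * π / T)) ^ 2 * (sc T v k) ^ 2
      ≤ ∫ t in (0 : ℝ)..T, v' t ^ 2 := by
  have hv : Continuous v := continuous_iff_continuousAt.2 fun t => (hd t).continuousAt
  set A : ℤ → ℝ := fun k => ‖fourierCoeffOn hT (fun t => (v t : ℂ)) k‖ ^ 2 with hA
  set B : ℤ → ℝ := fun k => ‖fourierCoeffOn hT (fun t => (v' t : ℂ)) k‖ ^ 2 with hB
  have mem : ∀ w : ℝ → ℝ, Continuous w →
      MemLp (fun t => (w t : ℂ)) 2 (volume.restrict (Ioc 0 T)) := by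
    intro w hw
    have hw2 : Continuous fun t => (w t : ℂ) := by fun_prop
    obtain ⟨C, hC⟩ := (isCompact_Icc (a := (0 : ℝ)) (b := T)).exists_bound_of_continuousOn
      hw2.continuousOn
    refine MemLp.of_bound hw2.aestronglyMeasurable C ?_
    rw [ae_restrict_iff' measurableSet_Ioc]
    exact Eventually.of_forall fun t ht => hC t (Ioc_subset_Icc_self ht)
  have hsA : HasSum A ((1 / T) * ∫ t in (0 : ℝ)..T, v t ^ 2) := by
    have := hasSum_sq_fourierCoeffOn hT (mem v hv)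
    simpa [hA, sq_abs] using this
  have hsB : HasSum B ((1 / T) * ∫ t in (0 : ℝ)..T, v' t ^ 2) := by
    have := hasSum_sq_fourierCoeffOn hT (mem v' hv')
    simpa [hB, sq_abs] using this
  have hrel : ∀ k, (k * (2 * π / T)) ^ 2 * A k ≤ B k := by
    intro k
    rcases eq_or_ne k 0 with rfl | hk
    · simp only [Int.cast_zero, zero_mul]
      rw [zero_pow two_ne_zero, zero_mul]
      positivity
    have h1 := fourierCoeffOn_of_hasDerivAt (a := 0) (b := T) hT (f := fun t => (v t : ℂ))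
      (f' := fun t => (v' t : ℂ)) hk (fun x _ => (hd x).ofReal_comp)
      ((by fun_prop : Continuous fun t => (v' t : ℂ)).intervalIntegrable _ _)
    have h2 : v T = v 0 := by have := hper 0; rwa [zero_add] at this
    have hk' : (k : ℂ) ≠ 0 := by exact_mod_cast hk
    have hTc : (T : ℂ) ≠ 0 := by exact_mod_cast hT.ne'
    rw [h2] at h1
    simp only [sub_self, mul_zero, zero_sub, sub_zero, ofReal_zero] at h1
    have h3 : fourierCoeffOn hT (fun t => (v' t : ℂ)) k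
        = (2 * π * I * k / T) * fourierCoeffOn hT (fun t => (v t : ℂ)) k := by
      rw [h1]
      have hpi : (π : ℂ) ≠ 0 := by exact_mod_cast Real.pi_ne_zero
      field_simp
    have hn : ‖(2 * π * I * k / T : ℂ)‖ = |(k : ℝ)| * (2 * π / T) := by
      rw [norm_div, norm_mul, norm_mul, norm_mul, Complex.norm_I, Complex.norm_intCast,
        Complex.norm_real, Complex.norm_real, Real.norm_eq_abs, Real.norm_eq_abs,
        abs_of_pos Real.pi_pos, abs_of_pos hT]
      simp only [Complex.norm_ofNat]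
      ring
    simp only [hA, hB]
    rw [h3, norm_mul, hn]
    apply le_of_eq
    rw [mul_pow, mul_pow, mul_pow, sq_abs]
  -- the first modes
  set S : Finset ℤ := Finset.Ioo (-(n : ℤ)) n with hS
  have hsS : HasSum (fun k => if k ∈ S then A k else 0) (∑ k ∈ S, A k) := by
    have e : ∑ k ∈ S, A k = ∑ k ∈ S, (if k ∈ S then A k else 0) :=
      Finset.sum_congr rfl fun k hk => by simp [hk]
    rw [e]
    exact hasSum_sum_of_ne_finset_zero fun k hk => by simp [hk]
  have hsR : HasSum (fun k => if k ∈ S then (k * (2 * π / T)) ^ 2 * A k else 0)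
      (∑ k ∈ S, (k * (2 * π / T)) ^ 2 * A k) := by
    have e : ∑ k ∈ S, (k * (2 * π / T)) ^ 2 * A k
        = ∑ k ∈ S, (if k ∈ S then (k * (2 * π / T)) ^ 2 * A k else 0) :=
      Finset.sum_congr rfl fun k hk => by simp [hk]
    rw [e]
    exact hasSum_sum_of_ne_finset_zero fun k hk => by simp [hk]
  have hsC : HasSum (fun k => (n * (2 * π / T)) ^ 2 * (A k - if k ∈ S then A k else 0)
      + if k ∈ S then (k * (2 * π / T)) ^ 2 * A k else 0)
      ((n * (2 * π / T)) ^ 2 * ((1 / T) * (∫ t in (0 : ℝ)..T, v t ^ 2) - ∑ k ∈ S, A k)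
        + ∑ k ∈ S, (k * (2 * π / T)) ^ 2 * A k) :=
    ((hsA.sub hsS).mul_left _).add hsR
  have hle := hasSum_le (fun k => by
    by_cases hk : k ∈ S
    · simp only [hk, if_true, sub_self, mul_zero, zero_add]
      exact hrel k
    · simp only [hk, if_false, sub_zero, add_zero]
      refine le_trans ?_ (hrel k)
      have hA0 : 0 ≤ A k := by simp only [hA]; positivity
      refine mul_le_mul_of_nonneg_right ?_ hA0
      have h5 : (n : ℝ) ≤ |(k : ℝ)| := by
        have : (n : ℤ) ≤ |k| := by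
          rw [hS, Finset.mem_Ioo, not_and_or] at hk
          rcases abs_cases k with ⟨h, _⟩ | ⟨h, _⟩ <;> omega
        exact_mod_cast this
      rw [mul_pow, mul_pow, ← sq_abs (k : ℝ)]
      gcongr) hsC hsB
  have hS2 : ∑ k ∈ S, A k = (1 / T ^ 2) * ∑ k ∈ S, (sc T v k) ^ 2 := by
    rw [Finset.mul_sum]
    refine Finset.sum_congr rfl fun k _ => ?_
    simp only [hA]
    rw [fourier_coeff_sq hT hv hper hodd k]
    ring
  have hS3 : ∑ k ∈ S, (k * (2 * π / T)) ^ 2 * A k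
      = (1 / T ^ 2) * ∑ k ∈ S, (k * (2 * π / T)) ^ 2 * (sc T v k) ^ 2 := by
    rw [Finset.mul_sum]
    refine Finset.sum_congr rfl fun k _ => ?_
    simp only [hA]
    rw [fourier_coeff_sq hT hv hper hodd k]
    ring
  rw [hS2, hS3] at hle
  have h6 : (n * (2 * π / T)) ^ 2 * ((1 / T) * (∫ t in (0 : ℝ)..T, v t ^ 2)
      - (1 / T ^ 2) * ∑ k ∈ S, (sc T v k) ^ 2)
      + (1 / T ^ 2) * ∑ k ∈ S, (k * (2 * π / T)) ^ 2 * (sc T v k) ^ 2
      = (1 / T) * ((n * (2 * π / T)) ^ 2 *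
      ((∫ t in (0 : ℝ)..T, v t ^ 2) - (1 / T) * ∑ k ∈ S, (sc T v k) ^ 2)
      + (1 / T) * ∑ k ∈ S, (k * (2 * π / T)) ^ 2 * (sc T v k) ^ 2) := by
    field_simp
  rw [h6] at hle
  have h7 : 0 < 1 / T := by positivity
  exact le_of_mul_le_mul_left hle h7

lemma sum_even (f : ℤ → ℝ) (he : ∀ k, f (-k) = f k) (h0 : f 0 = 0) (n : ℕ) :
    ∑ k ∈ Finset.Ioo (-((n + 1 : ℕ) : ℤ)) ((n + 1 : ℕ) : ℤ), f k
      = 2 * ∑ k ∈ Finset.Icc 1 n, f (k : ℤ) := by
  induction n with
  | zero =>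
    have : Finset.Ioo (-((0 + 1 : ℕ) : ℤ)) ((0 + 1 : ℕ) : ℤ) = {0} := by
      ext k; simp only [Finset.mem_Ioo, Finset.mem_singleton]; omega
    rw [this]
    simp [h0]
  | succ n ih =>
    have e : Finset.Ioo (-((n + 1 + 1 : ℕ) : ℤ)) ((n + 1 + 1 : ℕ) : ℤ)
        = insert ((n + 1 : ℕ) : ℤ) (insert (-((n + 1 : ℕ) : ℤ))
          (Finset.Ioo (-((n + 1 : ℕ) : ℤ)) ((n + 1 : ℕ) : ℤ))) := by
      ext k; simp only [Finset.mem_Ioo, Finset.mem_insert]; omega
    rw [e, Finset.sum_insert, Finset.sum_insert, ih, he,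
      Finset.sum_Icc_succ_top (by omega)]
    · ring
    · simp
    · simp only [Finset.mem_insert, Finset.mem_Ioo, not_or]; omega

lemma sc_neg_k (T : ℝ) (v : ℝ → ℝ) (k : ℤ) : sc T v (-k) = - sc T v k := by
  unfold sc
  rw [← intervalIntegral.integral_neg]
  refine intervalIntegral.integral_congr fun t _ => ?_
  have : 2 * π * ((-k : ℤ) : ℝ) * t / T = -(2 * π * k * t / T) := by push_cast; ring
  simp only [this, Real.sin_neg]
  ring

lemma sc_zero_k (T : ℝ) (v : ℝ → ℝ) : sc T v 0 = 0 := by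
  unfold sc
  simp

/-- Wirtinger's inequality, sums over the positive modes. -/
theorem wirt {T : ℝ} (hT : 0 < T) {v v' : ℝ → ℝ} (hd : ∀ t, HasDerivAt v (v' t) t)
    (hv' : Continuous v') (hper : ∀ t, v (t + T) = v t) (hodd : ∀ t, v (-t) = - v t) (n : ℕ) :
    ((n + 1) * (2 * π / T)) ^ 2 * ((∫ t in (0 : ℝ)..T, v t ^ 2)
      - (2 / T) * ∑ k ∈ Finset.Icc 1 n, (sc T v (k : ℤ)) ^ 2)
      + (2 / T) * ∑ k ∈ Finset.Icc 1 n, (k * (2 * π / T)) ^ 2 * (sc T v (k : ℤ)) ^ 2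
      ≤ ∫ t in (0 : ℝ)..T, v' t ^ 2 := by
  have h := wirtZ hT hd hv' hper hodd (n + 1)
  rw [sum_even (fun k => (sc T v k) ^ 2) (fun k => by simp only [sc_neg_k]; ring)
    (by simp only [sc_zero_k]; ring),
    sum_even (fun k => (k * (2 * π / T)) ^ 2 * (sc T v k) ^ 2)
    (fun k => by simp only [sc_neg_k]; push_cast; ring)
    (by simp only [sc_zero_k]; ring)] at h
  push_cast at h
  refine le_trans (le_of_eq ?_) h
  ring

end H93.Br
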