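import Mathlib
import Pool.Agent.H53.Br.Det
import Pool.Agent.H93.Br.Wirt

open MeasureTheory Set Filter Topology Real

namespace H93.Br

open H53.Br

variable {N : ℕ} {c : ℕ → ℝ} {T : ℝ} {u : ℝ → ℝ → ℝ}

/-- the remainder of the nonlinearity -/
noncomputable def rr (N : ℕ) (c : ℕ → ℝ) (u : ℝ → ℝ → ℝ) (x t : ℝ) : ℝ :=
  gg N c (u x t) - c 1 * u x t

lemma gg_split (hN : 1 ≤ N) (c : ℕ → ℝ) (y : ℝ) :
    gg N c y = c 1 * y + ∑ j ∈ Finset.Icc 2 N, c j * y ^ (2 * j - 1) := by
  unfold gg
  rw [← Finset.add_sum_Ioc_eq_sum_Icc hN]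
  have : Finset.Ioc 1 N = Finset.Icc 2 N := by
    ext j; rw [Finset.mem_Ioc, Finset.mem_Icc]; omega
  rw [this]
  simp

lemma GG_split (hN : 1 ≤ N) (c : ℕ → ℝ) (y : ℝ) :
    2 * GG N c y = c 1 * y ^ 2 + ∑ j ∈ Finset.Icc 2 N, c j / j * y ^ (2 * j) := by
  unfold GG
  rw [← Finset.add_sum_Ioc_eq_sum_Icc hN]
  have : Finset.Ioc 1 N = Finset.Icc 2 N := by
    ext j; rw [Finset.mem_Ioc, Finset.mem_Icc]; omega
  rw [this, mul_add, Finset.mul_sum]
  congr 1
  · push_cast; ring
  · refine Finset.sum_congr rfl fun j hj => ?_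
    rw [Finset.mem_Icc] at hj
    have hj0 : (j : ℝ) ≠ 0 := by
      have : 0 < j := by omega
      positivity
    field_simp

/-- equation of the sine coefficients -/
lemma sc_dd (h : IsBreather N c T u) (hT : 0 < T) (k : ℤ) (x : ℝ) :
    sc T (dx (dx u) x) k = (c 1 - (k * (2 * π / T)) ^ 2) * sc T (u x) k + sc T (rr N c u x) k := by
  have w := h.w
  have cw := w.cu
  have cwxx := w.cuxx
  have cwt := w.cut
  have cwtt := w.cutt
  have cg := continuous_gg N c
  set κ : ℝ := 2 * π * k / T with hκ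
  have hk1 : (k * (2 * π / T)) ^ 2 = κ ^ 2 := by rw [hκ]; ring
  have hs : ∀ t, 2 * π * k * t / T = κ * t := by intro t; rw [hκ]; ring
  have hd : ∀ t, HasDerivAt (fun s => dt u x s * Real.sin (κ * s)
      - κ * (u x s * Real.cos (κ * s)))
      (dt (dt u) x t * Real.sin (κ * t) + κ ^ 2 * (u x t * Real.sin (κ * t))) t := by
    intro t
    have h2 : HasDerivAt (fun s => κ * s) κ t := by simpa using (hasDerivAt_id t).const_mul κ
    have h3 := (w.htt x t).fun_mul h2.sin
    have h4 := ((w.ht x t).fun_mul h2.cos).const_mul κ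
    refine (h3.sub h4).congr_deriv ?_
    ring
  have h0 : ∫ t in (0 : ℝ)..T, (dt (dt u) x t * Real.sin (κ * t) +
      κ ^ 2 * (u x t * Real.sin (κ * t))) = 0 := by
    refine int_deriv_zero hd ?_ ?_
    · exact ((cont_t cwtt x).mul (by fun_prop)).add
        (continuous_const.mul ((cont_t cw x).mul (by fun_prop)))
    · have e1 : Real.sin (κ * T) = 0 := by
        have : κ * T = k * (2 * π) := by rw [hκ]; field_simp
        rw [this]
        have := Real.sin_int_mul_pi (2 * k)
        push_cast at this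
        rw [← this]; congr 1; ring
      rw [e1, h.zero, h.zero_T]
      simp
  unfold sc
  simp only [hs]
  have cr : Continuous fun t => rr N c u x t := by
    unfold rr
    have := cont_t cw x
    fun_prop
  have i1 : IntervalIntegrable (fun t => dt (dt u) x t * Real.sin (κ * t) +
      κ ^ 2 * (u x t * Real.sin (κ * t))) volume 0 T :=
    (((cont_t cwtt x).mul (by fun_prop)).add
        (continuous_const.mul ((cont_t cw x).mul (by fun_prop)))).intervalIntegrable _ _
  have i2 : IntervalIntegrable (fun t => (c 1 - κ ^ 2) * (u x t * Real.sin (κ * t))) volume 0 T :=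
    (continuous_const.mul ((cont_t cw x).mul (by fun_prop))).intervalIntegrable _ _
  have i3 : IntervalIntegrable (fun t => rr N c u x t * Real.sin (κ * t)) volume 0 T :=
    (cr.mul (by fun_prop)).intervalIntegrable _ _
  have e : ∫ t in (0 : ℝ)..T, dx (dx u) x t * Real.sin (κ * t) =
      ∫ t in (0 : ℝ)..T, ((dt (dt u) x t * Real.sin (κ * t) + κ ^ 2 * (u x t * Real.sin (κ * t))) +
        (c 1 - κ ^ 2) * (u x t * Real.sin (κ * t)) + rr N c u x t * Real.sin (κ * t)) := by
    refine intervalIntegral.integral_congr fun t _ => ?_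
    have := h.wave x t
    have e2 : dx (dx u) x t = dt (dt u) x t + gg N c (u x t) := by rw [this]; ring
    simp only [rr]
    rw [e2]; ring
  rw [e, intervalIntegral.integral_add (i1.add i2) i3, intervalIntegral.integral_add i1 i2, h0,
    intervalIntegral.integral_const_mul, hk1, zero_add]

/-- Chebyshev's association inequality for the powers of `|v|`. -/
lemma cheb {v : ℝ → ℝ} (hv : Continuous v) (hT : 0 < T) {j : ℕ} (hj : 1 ≤ j) :
    (∫ t in (0 : ℝ)..T, |v t|) * (∫ t in (0 : ℝ)..T, |v t| ^ (2 * j - 1))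
      ≤ T * ∫ t in (0 : ℝ)..T, v t ^ (2 * j) := by
  have key : ∀ a b : ℝ, 0 ≤ a → 0 ≤ b →
      a * b ^ (2 * j - 1) + a ^ (2 * j - 1) * b ≤ a ^ (2 * j) + b ^ (2 * j) := by
    intro a b ha hb
    have e1 : a ^ (2 * j) = a ^ (2 * j - 1) * a := by
      rw [← pow_succ]; congr 1; omega
    have e2 : b ^ (2 * j) = b ^ (2 * j - 1) * b := by
      rw [← pow_succ]; congr 1; omega
    rw [e1, e2]
    rcases le_total a b with hab | hab
    · have := pow_le_pow_left₀ ha hab (2 * j - 1)
      nlinarith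
    · have := pow_le_pow_left₀ hb hab (2 * j - 1)
      nlinarith
  set a := ∫ t in (0 : ℝ)..T, |v t| with hadef
  set b := ∫ t in (0 : ℝ)..T, |v t| ^ (2 * j - 1) with hbdef
  set d := ∫ t in (0 : ℝ)..T, v t ^ (2 * j) with hddef
  have hpow : ∀ t, |v t| ^ (2 * j) = v t ^ (2 * j) := by
    intro t
    rw [pow_mul, sq_abs, ← pow_mul]
  have h1 : ∀ s, |v s| * b + |v s| ^ (2 * j - 1) * a ≤ T * v s ^ (2 * j) + d := by
    intro s
    have h2 : ∫ t in (0 : ℝ)..T, (|v s| * |v t| ^ (2 * j - 1) + |v s| ^ (2 * j - 1) * |v t|) ≤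
        ∫ t in (0 : ℝ)..T, (v s ^ (2 * j) + v t ^ (2 * j)) := by
      refine intervalIntegral.integral_mono_on hT.le
        ((by fun_prop : Continuous fun t => |v s| * |v t| ^ (2 * j - 1)
          + |v s| ^ (2 * j - 1) * |v t|).intervalIntegrable _ _)
        ((by fun_prop : Continuous fun t => v s ^ (2 * j) + v t ^ (2 * j)).intervalIntegrable _ _)
        fun t _ => ?_
      have := key |v s| |v t| (abs_nonneg _) (abs_nonneg _)
      rw [hpow, hpow] at this
      exact this
    rw [intervalIntegral.integral_add ((by fun_prop : Continuous fun t =>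
        |v s| * |v t| ^ (2 * j - 1)).intervalIntegrable _ _)
        ((by fun_prop : Continuous fun t => |v s| ^ (2 * j - 1) * |v t|).intervalIntegrable _ _),
      intervalIntegral.integral_add ((by fun_prop : Continuous fun t : ℝ =>
        v s ^ (2 * j)).intervalIntegrable _ _)
        ((by fun_prop : Continuous fun t => v t ^ (2 * j)).intervalIntegrable _ _),
      intervalIntegral.integral_const_mul, intervalIntegral.integral_const_mul,
      intervalIntegral.integral_const, sub_zero, smul_eq_mul] at h2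
    exact h2
  have h3 : ∫ s in (0 : ℝ)..T, (|v s| * b + |v s| ^ (2 * j - 1) * a) ≤
      ∫ s in (0 : ℝ)..T, (T * v s ^ (2 * j) + d) :=
    intervalIntegral.integral_mono_on hT.le
      ((by fun_prop : Continuous fun s => |v s| * b + |v s| ^ (2 * j - 1) * a).intervalIntegrable
        _ _)
      ((by fun_prop : Continuous fun s => T * v s ^ (2 * j) + d).intervalIntegrable _ _)
      fun s _ => h1 s
  rw [intervalIntegral.integral_add ((by fun_prop : Continuous fun s =>
      |v s| * b).intervalIntegrable _ _)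
      ((by fun_prop : Continuous fun s => |v s| ^ (2 * j - 1) * a).intervalIntegrable _ _),
    intervalIntegral.integral_add ((by fun_prop : Continuous fun s =>
      T * v s ^ (2 * j)).intervalIntegrable _ _)
      ((by fun_prop : Continuous fun _ : ℝ => d).intervalIntegrable _ _),
    intervalIntegral.integral_mul_const, intervalIntegral.integral_mul_const,
    intervalIntegral.integral_const_mul, intervalIntegral.integral_const, sub_zero,
    smul_eq_mul] at h3
  rw [← hadef, ← hbdef, ← hddef] at h3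
  nlinarith

lemma abs_sc_le {v : ℝ → ℝ} (hv : Continuous v) (hT : 0 < T) (k : ℤ) :
    |sc T v k| ≤ ∫ t in (0 : ℝ)..T, |v t| := by
  unfold sc
  refine (intervalIntegral.abs_integral_le_integral_abs hT.le).trans ?_
  refine intervalIntegral.integral_mono_on hT.le
    ((by fun_prop : Continuous fun t => |v t * Real.sin (2 * π * k * t / T)|).intervalIntegrable
      _ _) ((by fun_prop : Continuous fun t => |v t|).intervalIntegrable _ _) fun t _ => ?_
  rw [abs_mul]
  have := Real.abs_sin_le_one (2 * π * k * t / T)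
  nlinarith [abs_nonneg (v t)]

/-- the mixed term of the low modes -/
lemma cross (hN : 1 ≤ N) (h : IsBreather N c T u) (hT : 0 < T) (n : ℕ) (x : ℝ) :
    -(2 * n * ∑ j ∈ Finset.Icc 2 N, |c j| * ∫ t in (0 : ℝ)..T, u x t ^ (2 * j)) ≤
    (2 / T) * ∑ k ∈ Finset.Icc 1 n, sc T (u x) (k : ℤ) * sc T (rr N c u x) (k : ℤ) := by
  have cu : Continuous (u x) := cont_t h.w.cu x
  have cg := continuous_gg N c
  have cr : Continuous (rr N c u x) := by
    unfold rr
    fun_prop
  set a := ∫ t in (0 : ℝ)..T, |u x t| with ha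
  have ha0 : 0 ≤ a := intervalIntegral.integral_nonneg hT.le fun t _ => abs_nonneg _
  have hr : ∫ t in (0 : ℝ)..T, |rr N c u x t| ≤
      ∑ j ∈ Finset.Icc 2 N, |c j| * ∫ t in (0 : ℝ)..T, |u x t| ^ (2 * j - 1) := by
    have e : ∑ j ∈ Finset.Icc 2 N, |c j| * ∫ t in (0 : ℝ)..T, |u x t| ^ (2 * j - 1) =
        ∫ t in (0 : ℝ)..T, ∑ j ∈ Finset.Icc 2 N, |c j| * |u x t| ^ (2 * j - 1) := by
      rw [intervalIntegral.integral_finset_sum]
      · refine Finset.sum_congr rfl fun j _ => ?_
        rw [intervalIntegral.integral_const_mul]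
      · intro j _
        exact (by fun_prop : Continuous fun t => |c j| * |u x t| ^ (2 * j - 1)).intervalIntegrable
          _ _
    rw [e]
    refine intervalIntegral.integral_mono_on hT.le
      ((by fun_prop : Continuous fun t => |rr N c u x t|).intervalIntegrable _ _)
      ((by fun_prop : Continuous fun t => ∑ j ∈ Finset.Icc 2 N, |c j| * |u x t| ^ (2 * j - 1)
        ).intervalIntegrable _ _) fun t _ => ?_
    have e2 : rr N c u x t = ∑ j ∈ Finset.Icc 2 N, c j * u x t ^ (2 * j - 1) := by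
      unfold rr
      rw [gg_split hN]
      ring
    rw [e2]
    refine (Finset.abs_sum_le_sum_abs _ _).trans (le_of_eq (Finset.sum_congr rfl fun j _ => ?_))
    rw [abs_mul, abs_pow]
  have hb : ∀ k ∈ Finset.Icc 1 n, -(∑ j ∈ Finset.Icc 2 N, |c j| *
      (T * ∫ t in (0 : ℝ)..T, u x t ^ (2 * j))) ≤
      sc T (u x) (k : ℤ) * sc T (rr N c u x) (k : ℤ) := by
    intro k _
    have h1 := abs_sc_le cu hT (k : ℤ)
    have h2 := (abs_sc_le cr hT (k : ℤ)).trans hr
    have h3 : |sc T (u x) (k : ℤ) * sc T (rr N c u x) (k : ℤ)| ≤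
        a * ∑ j ∈ Finset.Icc 2 N, |c j| * ∫ t in (0 : ℝ)..T, |u x t| ^ (2 * j - 1) := by
      rw [abs_mul]
      exact mul_le_mul h1 h2 (abs_nonneg _) ha0
    have h4 : a * ∑ j ∈ Finset.Icc 2 N, |c j| * ∫ t in (0 : ℝ)..T, |u x t| ^ (2 * j - 1) ≤
        ∑ j ∈ Finset.Icc 2 N, |c j| * (T * ∫ t in (0 : ℝ)..T, u x t ^ (2 * j)) := by
      rw [Finset.mul_sum]
      refine Finset.sum_le_sum fun j hj => ?_
      rw [Finset.mem_Icc] at hj
      have := cheb cu hT (j := j) (by omega)
      rw [← ha] at this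
      have h5 := mul_le_mul_of_nonneg_left this (abs_nonneg (c j))
      linarith
    have h5 := neg_abs_le (sc T (u x) (k : ℤ) * sc T (rr N c u x) (k : ℤ))
    linarith
  have h6 := Finset.sum_le_sum hb
  rw [Finset.sum_const, Nat.card_Icc, Nat.add_sub_cancel, nsmul_eq_mul] at h6
  have h7 := mul_le_mul_of_nonneg_left h6 (by positivity : (0 : ℝ) ≤ 2 / T)
  refine le_trans (le_of_eq ?_) h7
  have e : ∑ j ∈ Finset.Icc 2 N, |c j| * (T * ∫ t in (0 : ℝ)..T, u x t ^ (2 * j)) =
      T * ∑ j ∈ Finset.Icc 2 N, |c j| * ∫ t in (0 : ℝ)..T, u x t ^ (2 * j) := by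
    rw [Finset.mul_sum]
    refine Finset.sum_congr rfl fun j _ => ?_
    ring
  rw [e]
  field_simp

end H93.Br
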