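import Mathlib
import Pool.Agent.H93.Br.Core

open MeasureTheory Set Filter Topology Real

namespace H93.Br

open H53.Br

variable {N : ℕ} {c : ℕ → ℝ} {T : ℝ} {u : ℝ → ℝ → ℝ}

/-- second derivative of the convex functional -/
noncomputable def Phi2 (T e κ : ℝ) (n : ℕ) (u : ℝ → ℝ → ℝ) (x : ℝ) : ℝ :=
  (1 - e) * (∫ t in (0 : ℝ)..T, 2 * (dx u x t ^ 2 + u x t * dx (dx u) x t)) +
  κ * ((2 / T) * ∑ k ∈ Finset.Icc 1 n, 2 * (sc T (dx u x) (k : ℤ) ^ 2 +
    sc T (u x) (k : ℤ) * sc T (dx (dx u) x) (k : ℤ)))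

/-- first derivative of the convex functional -/
noncomputable def Phi1 (T e κ : ℝ) (n : ℕ) (u : ℝ → ℝ → ℝ) (x : ℝ) : ℝ :=
  (1 - e) * (∫ t in (0 : ℝ)..T, 2 * (u x t * dx u x t)) +
  κ * ((2 / T) * ∑ k ∈ Finset.Icc 1 n, 2 * (sc T (u x) (k : ℤ) * sc T (dx u x) (k : ℤ)))

lemma sc_deriv1 (h : IsBreather N c T u) (k : ℤ) (x : ℝ) :
    HasDerivAt (fun y => sc T (u y) k) (sc T (dx u x) k) x := by
  have cu := h.w.cu
  have cux := h.w.cux
  unfold sc
  exact hasDerivAt_param (f := fun y t => u y t * Real.sin (2 * π * k * t / T))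
    (f' := fun x t => dx u x t * Real.sin (2 * π * k * t / T)) (by fun_prop) (by fun_prop)
    (fun x t => (h.w.hx x t).mul_const _) 0 T x

lemma sc_deriv2 (h : IsBreather N c T u) (k : ℤ) (x : ℝ) :
    HasDerivAt (fun y => sc T (dx u y) k) (sc T (dx (dx u) x) k) x := by
  have cux := h.w.cux
  have cuxx := h.w.cuxx
  unfold sc
  exact hasDerivAt_param (f := fun y t => dx u y t * Real.sin (2 * π * k * t / T))
    (f' := fun x t => dx (dx u) x t * Real.sin (2 * π * k * t / T)) (by fun_prop) (by fun_prop)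
    (fun x t => (h.w.hxx x t).mul_const _) 0 T x

lemma phi_deriv (h : IsBreather N c T u) (e κ : ℝ) (n : ℕ) (x : ℝ) :
    HasDerivAt (Phi1 T e κ n u) (Phi2 T e κ n u x) x := by
  have w := h.w
  have cu := w.cu
  have cux := w.cux
  have cuxx := w.cuxx
  have h1 := hasDerivAt_param (f := fun y t => 2 * (u y t * dx u y t))
    (f' := fun x t => 2 * (dx u x t ^ 2 + u x t * dx (dx u) x t))
    (by fun_prop) (by fun_prop) (fun x t => by
      refine (((w.hx x t).fun_mul (w.hxx x t)).const_mul 2).congr_deriv ?_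
      ring) 0 T x
  have h2 : HasDerivAt (fun y => ∑ k ∈ Finset.Icc 1 n, 2 * (sc T (u y) (k : ℤ) *
      sc T (dx u y) (k : ℤ))) (∑ k ∈ Finset.Icc 1 n, 2 * (sc T (dx u x) (k : ℤ) ^ 2 +
      sc T (u x) (k : ℤ) * sc T (dx (dx u) x) (k : ℤ))) x := by
    refine HasDerivAt.fun_sum fun k _ => ?_
    refine (((sc_deriv1 h k x).fun_mul (sc_deriv2 h k x)).const_mul 2).congr_deriv ?_
    ring
  exact (h1.const_mul (1 - e)).add ((h2.const_mul (2 / T)).const_mul κ)

/-- **The main inequality** at a fixed `x`. -/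
theorem phi2_ge (hN : 1 ≤ N) (h : IsBreather N c T u) (hT : 0 < T) {n m : ℕ} (hnm : n ≤ m)
    (hz : ∀ x, ∀ k : ℕ, n < k → k ≤ m → sc T (u x) (k : ℤ) = 0)
    {lam bet η e f : ℝ} (hlam : 0 < lam) (hbet : 0 < bet)
    (hl : lam = c 1 - (n * (2 * π / T)) ^ 2) (hb : bet = ((m + 1) * (2 * π / T)) ^ 2 - c 1)
    (hη : 0 < η) (he : e * bet = η) (hf : f * lam = η) (x : ℝ)
    (hpt : ∀ t, 0 ≤ η + ∑ j ∈ Finset.Icc 2 N, ((((j : ℝ) - 1) / j - e) * c j
      - 2 * n * (e + f) * |c j|) * u x t ^ (2 * (j - 1))) :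
    2 * (2 - e) * (∫ t in (0 : ℝ)..T, dx u x t ^ 2) ≤ Phi2 T e (e + f) n u x := by
  have w := h.w
  have cu := w.cu
  have cux := w.cux
  have cut := w.cut
  have cuxx := w.cuxx
  have cuxt := w.cuxt
  have cutt := w.cutt
  have cg := continuous_gg N c
  have cG := continuous_GG N c
  have he0 : 0 < e := by
    by_contra hc
    have : e * bet ≤ 0 := mul_nonpos_of_nonpos_of_nonneg (not_lt.1 hc) hbet.le
    linarith
  have hf0 : 0 < f := by
    by_contra hc
    have : f * lam ≤ 0 := mul_nonpos_of_nonpos_of_nonneg (not_lt.1 hc) hlam.le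
    linarith
  set A0 := ∫ t in (0 : ℝ)..T, u x t ^ 2 with hA0
  set Ax := ∫ t in (0 : ℝ)..T, dx u x t ^ 2 with hAx
  set At := ∫ t in (0 : ℝ)..T, dt u x t ^ 2 with hAt
  set IG := ∫ t in (0 : ℝ)..T, GG N c (u x t) with hIG
  set Ig := ∫ t in (0 : ℝ)..T, u x t * gg N c (u x t) with hIg
  set S0 := (2 / T) * ∑ k ∈ Finset.Icc 1 n, sc T (u x) (k : ℤ) ^ 2 with hS0
  set S2 := (2 / T) * ∑ k ∈ Finset.Icc 1 n, (k * (2 * π / T)) ^ 2 * sc T (u x) (k : ℤ) ^ 2
    with hS2
  set Q := ∑ j ∈ Finset.Icc 2 N, |c j| * ∫ t in (0 : ℝ)..T, u x t ^ (2 * j) with hQ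
  have ix : ∀ f : ℝ → ℝ, Continuous f → IntervalIntegrable f volume 0 T :=
    fun f hf => hf.intervalIntegrable _ _
  have cux' := cont_t cu x
  have cuxx' := cont_t cux x
  have cut' := cont_t cut x
  have cuxx2 := cont_t cuxx x
  have cutt' := cont_t cutt x
  -- the energy
  have hE : Ax + At = 2 * IG := by
    have h1 := h.energy hT x
    have h2 : ∫ t in (0 : ℝ)..T, (dx u x t ^ 2 / 2 + dt u x t ^ 2 / 2 - GG N c (u x t)) =
        Ax / 2 + At / 2 - IG := by
      rw [intervalIntegral.integral_sub (ix _ (by fun_prop)) (ix _ (by fun_prop)),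
        intervalIntegral.integral_add (ix _ (by fun_prop)) (ix _ (by fun_prop)),
        intervalIntegral.integral_div, intervalIntegral.integral_div]
    rw [h2] at h1
    linarith
  -- integration by parts
  have hI : ∫ t in (0 : ℝ)..T, 2 * (dx u x t ^ 2 + u x t * dx (dx u) x t) =
      2 * Ax - 2 * At + 2 * Ig := by
    have e1 : ∫ t in (0 : ℝ)..T, (dt u x t * dt u x t + u x t * dt (dt u) x t) = 0 := by
      refine int_deriv_zero (fun t => (w.ht x t).fun_mul (w.htt x t)) ?_ ?_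
      · exact ((cont_t cut x).mul (cont_t cut x)).add ((cont_t cu x).mul (cont_t cutt x))
      · rw [h.zero, h.zero_T, zero_mul, zero_mul]
    have e3 : ∫ t in (0 : ℝ)..T, 2 * (dx u x t ^ 2 + u x t * dx (dx u) x t) =
        ∫ t in (0 : ℝ)..T, (2 * dx u x t ^ 2 - 2 * dt u x t ^ 2 + 2 * (u x t * gg N c (u x t)) +
        2 * (dt u x t * dt u x t + u x t * dt (dt u) x t)) := by
      refine intervalIntegral.integral_congr fun t _ => ?_
      have hw := h.wave x t
      have e : dx (dx u) x t = dt (dt u) x t + gg N c (u x t) := by rw [hw]; ring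
      show 2 * (dx u x t ^ 2 + u x t * dx (dx u) x t) = _
      rw [e]
      ring
    rw [e3, intervalIntegral.integral_add (ix _ (by fun_prop)) (ix _ (by fun_prop)),
      intervalIntegral.integral_add (ix _ (by fun_prop)) (ix _ (by fun_prop)),
      intervalIntegral.integral_sub (ix _ (by fun_prop)) (ix _ (by fun_prop)),
      intervalIntegral.integral_const_mul, intervalIntegral.integral_const_mul,
      intervalIntegral.integral_const_mul 2 (fun t => u x t * gg N c (u x t)),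
      intervalIntegral.integral_const_mul 2 (fun t => dt u x t * dt u x t +
        u x t * dt (dt u) x t), e1]
    ring
  -- Wirtinger
  have hW : ((m + 1) * (2 * π / T)) ^ 2 * (A0 - S0) + S2 ≤ At := by
    have h1 := wirt hT (fun t => w.ht x t) (cont_t cut x) (h.periodic x) (h.odd hN hT x) m
    have r1 : ∑ k ∈ Finset.Icc 1 m, sc T (u x) (k : ℤ) ^ 2 =
        ∑ k ∈ Finset.Icc 1 n, sc T (u x) (k : ℤ) ^ 2 := by
      symm
      apply Finset.sum_subset (Finset.Icc_subset_Icc_right hnm)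
      intro k hk hk2
      rw [Finset.mem_Icc] at hk hk2
      rw [hz x k (by omega) hk.2]
      ring
    have r2 : ∑ k ∈ Finset.Icc 1 m, (k * (2 * π / T)) ^ 2 * sc T (u x) (k : ℤ) ^ 2 =
        ∑ k ∈ Finset.Icc 1 n, (k * (2 * π / T)) ^ 2 * sc T (u x) (k : ℤ) ^ 2 := by
      symm
      apply Finset.sum_subset (Finset.Icc_subset_Icc_right hnm)
      intro k hk hk2
      rw [Finset.mem_Icc] at hk hk2
      rw [hz x k (by omega) hk.2]
      ring
    rw [r1, r2] at h1
    exact h1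
  have hLam : lam * S0 ≤ c 1 * S0 - S2 := by
    have e1 : c 1 * S0 - S2 - lam * S0 = (2 / T) * ∑ k ∈ Finset.Icc 1 n,
        (c 1 - (k * (2 * π / T)) ^ 2 - lam) * sc T (u x) (k : ℤ) ^ 2 := by
      simp only [hS0, hS2, Finset.mul_sum]
      rw [← Finset.sum_sub_distrib, ← Finset.sum_sub_distrib]
      refine Finset.sum_congr rfl fun k _ => ?_
      ring
    have e2 : 0 ≤ (2 / T) * ∑ k ∈ Finset.Icc 1 n,
        (c 1 - (k * (2 * π / T)) ^ 2 - lam) * sc T (u x) (k : ℤ) ^ 2 := by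
      refine mul_nonneg (by positivity) (Finset.sum_nonneg fun k hk => ?_)
      rw [Finset.mem_Icc] at hk
      refine mul_nonneg ?_ (sq_nonneg _)
      rw [hl]
      have h1 : (k : ℝ) ≤ n := by exact_mod_cast hk.2
      have h2 : (k * (2 * π / T)) ^ 2 ≤ (n * (2 * π / T)) ^ 2 := by gcongr
      linarith
    linarith
  -- the equation of the coefficients
  have hdd : (2 / T) * ∑ k ∈ Finset.Icc 1 n, 2 * (sc T (dx u x) (k : ℤ) ^ 2 +
      sc T (u x) (k : ℤ) * sc T (dx (dx u) x) (k : ℤ)) =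
      2 * ((2 / T) * ∑ k ∈ Finset.Icc 1 n, sc T (dx u x) (k : ℤ) ^ 2) + 2 * (c 1 * S0 - S2) +
      2 * ((2 / T) * ∑ k ∈ Finset.Icc 1 n, sc T (u x) (k : ℤ) * sc T (rr N c u x) (k : ℤ)) := by
    simp only [hS0, hS2, Finset.mul_sum]
    rw [← Finset.sum_sub_distrib, Finset.mul_sum, ← Finset.sum_add_distrib,
      ← Finset.sum_add_distrib]
    refine Finset.sum_congr rfl fun k _ => ?_
    rw [sc_dd h hT (k : ℤ) x]
    push_cast
    ring
  have hSx : 0 ≤ (2 / T) * ∑ k ∈ Finset.Icc 1 n, sc T (dx u x) (k : ℤ) ^ 2 := by positivity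
  have hcr := cross hN h hT n x
  rw [← hQ] at hcr
  -- the pointwise condition, integrated
  have hP : 0 ≤ η * A0 + (1 - e) * (Ig - c 1 * A0) + (c 1 * A0 - 2 * IG)
      - 2 * n * (e + f) * Q := by
    have e1 : η * A0 + (1 - e) * (Ig - c 1 * A0) + (c 1 * A0 - 2 * IG)
        - 2 * n * (e + f) * Q = ∫ t in (0 : ℝ)..T, (η * u x t ^ 2 +
        (1 - e) * (u x t * gg N c (u x t) - c 1 * u x t ^ 2) +
        (c 1 * u x t ^ 2 - 2 * GG N c (u x t)) -
        2 * n * (e + f) * ∑ j ∈ Finset.Icc 2 N, |c j| * u x t ^ (2 * j)) := by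
      rw [intervalIntegral.integral_sub (ix _ (by fun_prop)) (ix _ (by fun_prop)),
        intervalIntegral.integral_add (ix _ (by fun_prop)) (ix _ (by fun_prop)),
        intervalIntegral.integral_add (ix _ (by fun_prop)) (ix _ (by fun_prop)),
        intervalIntegral.integral_const_mul, intervalIntegral.integral_const_mul,
        intervalIntegral.integral_sub (ix _ (by fun_prop)) (ix _ (by fun_prop)),
        intervalIntegral.integral_sub (ix _ (by fun_prop)) (ix _ (by fun_prop)),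
        intervalIntegral.integral_const_mul, intervalIntegral.integral_const_mul,
        intervalIntegral.integral_const_mul, intervalIntegral.integral_finset_sum]
      · simp only [intervalIntegral.integral_const_mul]
        rw [hQ]
      · intro j _
        exact ix _ (by fun_prop)
    rw [e1]
    refine intervalIntegral.integral_nonneg hT.le fun t _ => ?_
    have h1 := hpt t
    have h2 : η * u x t ^ 2 + (1 - e) * (u x t * gg N c (u x t) - c 1 * u x t ^ 2) +
        (c 1 * u x t ^ 2 - 2 * GG N c (u x t)) -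
        2 * n * (e + f) * ∑ j ∈ Finset.Icc 2 N, |c j| * u x t ^ (2 * j) =
        u x t ^ 2 * (η + ∑ j ∈ Finset.Icc 2 N, ((((j : ℝ) - 1) / j - e) * c j
          - 2 * n * (e + f) * |c j|) * u x t ^ (2 * (j - 1))) := by
      rw [gg_split hN, GG_split hN]
      have s1 : u x t * (c 1 * u x t + ∑ j ∈ Finset.Icc 2 N, c j * u x t ^ (2 * j - 1)) -
          c 1 * u x t ^ 2 = ∑ j ∈ Finset.Icc 2 N, c j * u x t ^ (2 * j) := by
        rw [mul_add, Finset.mul_sum]
        have : ∀ j ∈ Finset.Icc 2 N, u x t * (c j * u x t ^ (2 * j - 1)) =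
            c j * u x t ^ (2 * j) := by
          intro j hj
          rw [Finset.mem_Icc] at hj
          have : 2 * j = (2 * j - 1) + 1 := by omega
          rw [this, pow_succ]
          simp only [Nat.add_sub_cancel]
          ring
        rw [Finset.sum_congr rfl this]
        ring
      have s2 : c 1 * u x t ^ 2 - (c 1 * u x t ^ 2 + ∑ j ∈ Finset.Icc 2 N,
          c j / j * u x t ^ (2 * j)) = ∑ j ∈ Finset.Icc 2 N, (-(c j / j * u x t ^ (2 * j))) := by
        rw [Finset.sum_neg_distrib]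
        ring
      have s3 : u x t ^ 2 * (η + ∑ j ∈ Finset.Icc 2 N, ((((j : ℝ) - 1) / j - e) * c j
          - 2 * n * (e + f) * |c j|) * u x t ^ (2 * (j - 1))) = η * u x t ^ 2 +
          ∑ j ∈ Finset.Icc 2 N, u x t ^ 2 * (((((j : ℝ) - 1) / j - e) * c j
          - 2 * n * (e + f) * |c j|) * u x t ^ (2 * (j - 1))) := by
        rw [mul_add (u x t ^ 2) η, Finset.mul_sum]
        ring
      have s4 : (1 - e) * ∑ j ∈ Finset.Icc 2 N, c j * u x t ^ (2 * j) +
          ∑ j ∈ Finset.Icc 2 N, (-(c j / j * u x t ^ (2 * j))) -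
          2 * n * (e + f) * ∑ j ∈ Finset.Icc 2 N, |c j| * u x t ^ (2 * j) =
          ∑ j ∈ Finset.Icc 2 N, u x t ^ 2 * (((((j : ℝ) - 1) / j - e) * c j
          - 2 * n * (e + f) * |c j|) * u x t ^ (2 * (j - 1))) := by
        rw [Finset.mul_sum, Finset.mul_sum, ← Finset.sum_add_distrib, ← Finset.sum_sub_distrib]
        refine Finset.sum_congr rfl fun j hj => ?_
        rw [Finset.mem_Icc] at hj
        have hj0 : (j : ℝ) ≠ 0 := by
          have : 0 < j := by omega
          positivity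
        have : u x t ^ (2 * j) = u x t ^ 2 * u x t ^ (2 * (j - 1)) := by
          rw [← pow_add]; congr 1; omega
        rw [this]
        field_simp
        ring
      rw [s1, s2, s3]
      linarith [s4]
    rw [h2]
    exact mul_nonneg (sq_nonneg _) h1
  -- conclusion
  have k1 : e * (((m + 1) * (2 * π / T)) ^ 2 * (A0 - S0) + S2) ≤ e * At :=
    mul_le_mul_of_nonneg_left hW he0.le
  have k2 : f * (lam * S0) ≤ f * (c 1 * S0 - S2) := mul_le_mul_of_nonneg_left hLam hf0.le
  have k3 : (e + f) * (-(2 * n * Q)) ≤ (e + f) * ((2 / T) * ∑ k ∈ Finset.Icc 1 n,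
      sc T (u x) (k : ℤ) * sc T (rr N c u x) (k : ℤ)) :=
    mul_le_mul_of_nonneg_left hcr (by positivity)
  have k4 : 0 ≤ (e + f) * ((2 / T) * ∑ k ∈ Finset.Icc 1 n, sc T (dx u x) (k : ℤ) ^ 2) :=
    mul_nonneg (by positivity) hSx
  have k5 : ((m + 1) * (2 * π / T)) ^ 2 = bet + c 1 := by rw [hb]; ring
  rw [k5] at k1
  have k6 : e * bet * (A0 - S0) = η * (A0 - S0) := by rw [he]
  have k7 : f * lam * S0 = η * S0 := by rw [hf]
  unfold Phi2
  rw [hI, hdd]
  set X1 := (2 / T) * ∑ k ∈ Finset.Icc 1 n, sc T (dx u x) (k : ℤ) ^ 2 with hX1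
  set X2 := (2 / T) * ∑ k ∈ Finset.Icc 1 n, sc T (u x) (k : ℤ) * sc T (rr N c u x) (k : ℤ)
    with hX2
  nlinarith [k1, k2, k3, k4, k6, k7, hP, hE]

end H93.Br
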