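import Mathlib
import Pool.Agent.H93.Br.Main
import Pool.Agent.H53.Br.Short

open MeasureTheory Set Filter Topology Real

namespace H93.Br

open H53.Br

variable {N : ℕ} {c : ℕ → ℝ} {T : ℝ} {u : ℝ → ℝ → ℝ}

lemma phi1_small (h : IsBreather N c T u) (hT : 0 < T) (e κ : ℝ) (n : ℕ) {ε : ℝ} (hε : 0 < ε) :
    ∃ X, 1 ≤ X ∧ ∀ x, X ≤ |x| → |Phi1 T e κ n u x| ≤ ε := by
  set C := |1 - e| * (2 * T) + |κ| * ((2 / T) * (n * (2 * T ^ 2))) with hC
  have hC0 : 0 ≤ C := by positivity
  set d := min 1 (ε / (C + 1)) with hd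
  have hd0 : 0 < d := by positivity
  have hd1 : d ≤ 1 := min_le_left _ _
  have hd2 : d ≤ ε / (C + 1) := min_le_right _ _
  obtain ⟨X, hX1, hX⟩ := h.small hT hd0
  refine ⟨X, hX1, fun x hx => ?_⟩
  have cu : Continuous (u x) := cont_t h.w.cu x
  have cux : Continuous (dx u x) := cont_t h.w.cux x
  have b1 : |∫ t in (0 : ℝ)..T, 2 * (u x t * dx u x t)| ≤ 2 * d * T := by
    apply abs_int_le hT
    intro t
    obtain ⟨h1, h2, -⟩ := hX x t hx
    rw [abs_mul, abs_mul, abs_two]
    have h3 : |u x t| * |dx u x t| ≤ 1 * d :=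
      mul_le_mul (h1.trans hd1) h2 (abs_nonneg _) zero_le_one
    linarith
  have b2 : ∀ v : ℝ → ℝ, Continuous v → (∀ t, |v t| ≤ d) → ∀ k : ℤ, |sc T v k| ≤ d * T := by
    intro v hv hvd k
    refine (abs_sc_le hv hT k).trans ?_
    have := abs_int_le (f := fun t => |v t|) hT (fun t => by rw [abs_abs]; exact hvd t)
    exact (le_abs_self _).trans this
  have b3 : ∀ k ∈ Finset.Icc 1 n, |2 * (sc T (u x) (k : ℤ) * sc T (dx u x) (k : ℤ))| ≤
      2 * (d * T ^ 2) := by
    intro k _
    have h1 := b2 (u x) cu (fun t => (hX x t hx).1) k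
    have h2 := b2 (dx u x) cux (fun t => (hX x t hx).2.1) k
    rw [abs_mul, abs_mul, abs_two]
    have h3 : |sc T (u x) (k : ℤ)| * |sc T (dx u x) (k : ℤ)| ≤ (1 * T) * (d * T) := by
      refine mul_le_mul (h1.trans ?_) h2 (abs_nonneg _) (by positivity)
      gcongr
    have h4 : (1 * T) * (d * T) = d * T ^ 2 := by ring
    rw [h4] at h3
    linarith
  have b4 : |∑ k ∈ Finset.Icc 1 n, 2 * (sc T (u x) (k : ℤ) * sc T (dx u x) (k : ℤ))| ≤
      n * (2 * (d * T ^ 2)) := by
    refine (Finset.abs_sum_le_sum_abs _ _).trans ((Finset.sum_le_sum b3).trans (le_of_eq ?_))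
    rw [Finset.sum_const, Nat.card_Icc, Nat.add_sub_cancel, nsmul_eq_mul]
  unfold Phi1
  refine (abs_add_le _ _).trans ?_
  rw [abs_mul, abs_mul, abs_mul (2 / T), abs_of_pos (by positivity : (0 : ℝ) < 2 / T)]
  have b5 : |1 - e| * |∫ t in (0 : ℝ)..T, 2 * (u x t * dx u x t)| ≤ |1 - e| * (2 * d * T) := by
    gcongr
  have b6 : |κ| * (2 / T * |∑ k ∈ Finset.Icc 1 n, 2 * (sc T (u x) (k : ℤ) *
      sc T (dx u x) (k : ℤ))|) ≤ |κ| * (2 / T * (n * (2 * (d * T ^ 2)))) := by
    gcongr
  have b7 : |1 - e| * (2 * d * T) + |κ| * (2 / T * (n * (2 * (d * T ^ 2)))) = d * C := by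
    rw [hC]; ring
  have b8 : d * C ≤ ε := by
    have h1 : d * C ≤ ε / (C + 1) * C := by gcongr
    have h2 : ε / (C + 1) * C ≤ ε := by
      rw [div_mul_eq_mul_div, div_le_iff₀ (by positivity)]
      nlinarith
    linarith
  linarith

/-- **The criterion.** -/
theorem vanish (hN : 1 ≤ N) (h : IsBreather N c T u) (hT : 0 < T) {n m : ℕ} (hnm : n ≤ m)
    (hz : ∀ x, ∀ k : ℕ, n < k → k ≤ m → sc T (u x) (k : ℤ) = 0)
    {lam bet η : ℝ} (hlam : 0 < lam) (hbet : 0 < bet)
    (hl : lam = c 1 - (n * (2 * π / T)) ^ 2) (hb : bet = ((m + 1) * (2 * π / T)) ^ 2 - c 1)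
    (hη : 0 < η) (hη2 : η < 2 * bet)
    (hpt : ∀ x t, 0 ≤ η + ∑ j ∈ Finset.Icc 2 N, ((((j : ℝ) - 1) / j - η / bet) * c j
      - 2 * n * (η / bet + η / lam) * |c j|) * u x t ^ (2 * (j - 1))) :
    ∀ x t, u x t = 0 := by
  have w := h.w
  have cu := w.cu
  have cux := w.cux
  set e := η / bet with he
  set f := η / lam with hf
  have he1 : e * bet = η := by rw [he]; field_simp
  have hf1 : f * lam = η := by rw [hf]; field_simp
  have he2 : e < 2 := by
    rw [he, div_lt_iff₀ hbet]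
    exact hη2
  have hge : ∀ x, 2 * (2 - e) * (∫ t in (0 : ℝ)..T, dx u x t ^ 2) ≤ Phi2 T e (e + f) n u x :=
    fun x => phi2_ge hN h hT hnm hz hlam hbet hl hb hη he1 hf1 x (hpt x)
  have hAx : ∀ x, 0 ≤ ∫ t in (0 : ℝ)..T, dx u x t ^ 2 := fun x =>
    intervalIntegral.integral_nonneg hT.le fun t _ => sq_nonneg _
  have hPhi2 : ∀ x, 0 ≤ Phi2 T e (e + f) n u x := by
    intro x
    have h1 := hge x
    have h2 : 0 ≤ 2 * (2 - e) * (∫ t in (0 : ℝ)..T, dx u x t ^ 2) :=
      mul_nonneg (by linarith) (hAx x)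
    linarith
  have hd : ∀ x, HasDerivAt (Phi1 T e (e + f) n u) (Phi2 T e (e + f) n u x) x :=
    phi_deriv h e (e + f) n
  have hmono : Monotone (Phi1 T e (e + f) n u) := by
    apply monotone_of_deriv_nonneg
    · intro x; exact (hd x).differentiableAt
    · intro x; rw [(hd x).deriv]; exact hPhi2 x
  have h0 : ∀ x, Phi1 T e (e + f) n u x = 0 := by
    intro x
    apply le_antisymm
    · refine le_of_forall_pos_le_add fun ε hε => ?_
      obtain ⟨X, hX1, hX⟩ := phi1_small h hT e (e + f) n hε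
      have h1 : x ≤ max x X := le_max_left _ _
      have h2 : X ≤ |max x X| := (le_max_right x X).trans (le_abs_self _)
      have h3 := hmono h1
      have h4 := hX _ h2
      linarith [le_abs_self (Phi1 T e (e + f) n u (max x X))]
    · refine le_of_forall_pos_le_add fun ε hε => ?_
      obtain ⟨X, hX1, hX⟩ := phi1_small h hT e (e + f) n hε
      have h1 : min x (-X) ≤ x := min_le_left _ _
      have h2 : X ≤ |min x (-X)| := by
        have h3 : min x (-X) ≤ -X := min_le_right _ _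
        rw [abs_of_nonpos (by linarith)]
        linarith
      have h3 := hmono h1
      have h4 := hX _ h2
      linarith [neg_abs_le (Phi1 T e (e + f) n u (min x (-X)))]
  have h2 : ∀ x, Phi2 T e (e + f) n u x = 0 := by
    intro x
    have e1 : Phi1 T e (e + f) n u = fun _ => 0 := funext h0
    have := hd x
    rw [e1] at this
    exact this.unique (hasDerivAt_const x 0)
  have h3 : ∀ x, ∫ t in (0 : ℝ)..T, dx u x t ^ 2 ≤ 0 := by
    intro x
    have h4 := hge x
    rw [h2 x] at h4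
    by_contra hc
    have h5 : 0 < 2 * (2 - e) * (∫ t in (0 : ℝ)..T, dx u x t ^ 2) :=
      mul_pos (by linarith) (not_le.1 hc)
    linarith
  have h4 : ∀ x t, dx u x t = 0 := by
    intro x t
    have h5 : ∀ s ∈ Icc 0 T, dx u x s ^ 2 = 0 :=
      zero_of_int ((cont_t cux x).pow 2) (fun s => sq_nonneg _) hT (h3 x)
    have hper : Function.Periodic (fun s => dx u x s) T := fun s => w.per_x h.periodic x s
    obtain ⟨y, hy, hy2⟩ := hper.exists_mem_Ico₀ hT t
    have := h5 y ⟨hy.1, hy.2.le⟩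
    exact hy2.trans ((pow_eq_zero_iff two_ne_zero).1 this)
  intro x t
  have h5 : ∀ y z, u y t = u z t := by
    apply is_const_of_deriv_eq_zero
    · intro y; exact (w.hx y t).differentiableAt
    · intro y; rw [(w.hx y t).deriv, h4]
  have h6 : |u x t| ≤ 0 := by
    refine le_of_forall_pos_le_add fun ε hε => ?_
    obtain ⟨X, hX1, hX⟩ := h.small hT hε
    rw [h5 x X, zero_add]
    exact (hX X t (le_abs_self X)).1
  exact abs_eq_zero.1 (le_antisymm h6 (abs_nonneg _))

/-- the second sine coefficient of a half-period antisymmetric function vanishes -/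
lemma sc_two (hT : 0 < T) {f : ℝ → ℝ} (hf : Continuous f) (hp : ∀ t, f (t + T / 2) = - f t) :
    sc T f 2 = 0 := by
  unfold sc
  set g : ℝ → ℝ := fun s => f s * Real.sin (2 * π * ((2 : ℤ) : ℝ) * s / T) with hg
  have cg : Continuous g := by rw [hg]; fun_prop
  have h1 : ∀ s, g (s + T / 2) = - g s := by
    intro s
    simp only [hg]
    rw [hp]
    have : 2 * π * ((2 : ℤ) : ℝ) * (s + T / 2) / T = 2 * π * ((2 : ℤ) : ℝ) * s / T + 2 * π := by
      push_cast
      field_simp
    rw [this, Real.sin_add_two_pi]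
    ring
  have h2 : ∫ t in (0 : ℝ)..T, g t = (∫ t in (0 : ℝ)..(T / 2), g t) +
      ∫ t in (T / 2)..T, g t :=
    (intervalIntegral.integral_add_adjacent_intervals (cg.intervalIntegrable _ _)
      (cg.intervalIntegrable _ _)).symm
  have h3 : ∫ t in (T / 2)..T, g t = ∫ t in (0 : ℝ)..(T / 2), g (t + T / 2) := by
    rw [intervalIntegral.integral_comp_add_right]
    congr 1 <;> ring
  rw [h2, h3]
  simp only [h1]
  rw [intervalIntegral.integral_neg]
  ring

/-- for short periods every breather changes sign under a half period -/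
lemma anti (hN : 1 ≤ N) (h : IsBreather N c T u) (hT : 0 < T) (hc : c 1 ≤ (4 * π / T) ^ 2) :
    ∀ x t, u x (t + T / 2) = - u x t := by
  rcases short hN hT hc with hall | ⟨U, -, -, -, hanti, hiff⟩
  · intro x t
    rw [hall u h, hall u h]; simp
  · rcases (hiff u).1 h with h0 | ⟨s, h1 | h1⟩
    · intro x t
      rw [h0, h0]; simp
    · intro x t
      rw [h1, h1, hanti]
    · intro x t
      rw [h1, h1, hanti]

end H93.Br
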