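import Mathlib
import Pool.Agent.H53.Br.Kern
import Pool.Agent.H53.Br.Short

open MeasureTheory Set Filter Topology

namespace H93.Br

open H53.Br

variable {N : ℕ} {c : ℕ → ℝ} {T : ℝ} {u : ℝ → ℝ → ℝ}

/-- **The criterion for an arbitrary kernel** (after helper53's `kernel_star`): `K` continuous,
symmetric about `T / 2`, inverting `d²/dt² + c₁` on the time slices of `u`. -/
theorem kernel_abs (hN : 1 ≤ N) (h : IsBreather N c T u) (hT : 0 < T) {K : ℝ → ℝ}
    (cK : Continuous K) (sK : ∀ s, K (T - s) = K s)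
    (hK : ∀ x, BB T K (fun t => dt (dt u) x t + c 1 * u x t) (u x) = ∫ t in (0 : ℝ)..T, u x t ^ 2)
    {κ : ℝ} (hκd : κ = ∫ s in (0 : ℝ)..T, |K s|) {η : ℝ} (hη : 0 ≤ η) (hκ : η * κ < 2)
    {hh : ℝ → ℝ} (hh0 : Continuous hh) (hm : MonotoneOn hh (Ici 0))
    (hr : ∀ x t, |gg N c (u x t) - c 1 * u x t| ≤ hh |u x t|)
    (hcrit : ∀ x t, η * κ * (|u x t| * hh |u x t|) ≤
      η * u x t ^ 2 + (u x t * gg N c (u x t) - 2 * GG N c (u x t))) :
    ∀ x t, u x t = 0 := by
  have hκ0 : 0 ≤ κ := by
    rw [hκd]
    exact intervalIntegral.integral_nonneg hT.le fun s _ => abs_nonneg _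
  have w := h.w
  have cu := w.cu
  have cux := w.cux
  have cut := w.cut
  have cuxx := w.cuxx
  have cuxt := w.cuxt
  have cutt := w.cutt
  have cg := continuous_gg N c
  have cG := continuous_GG N c
  have p := h.periodic
  have px := w.per_x p
  have pt := w.per_t p
  have pxx : ∀ x t, dx (dx u) x (t + T) = dx (dx u) x t := by
    intro x t
    have e : (fun y => dx u y (t + T)) = fun y => dx u y t := by funext y; exact px y t
    unfold dx at e ⊢
    exact congrArg (fun f => deriv f x) e
  set M : ℝ → ℝ := fun x => ∫ t in (0 : ℝ)..T, u x t ^ 2 with hM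
  set M1 : ℝ → ℝ := fun x => ∫ t in (0 : ℝ)..T, 2 * (u x t * dx u x t) with hM1
  set M2 : ℝ → ℝ := fun x => ∫ t in (0 : ℝ)..T, 2 * (dx u x t ^ 2 + u x t * dx (dx u) x t) with hM2
  set A1 : ℝ → ℝ := fun x => 2 * BB T K (dx u x) (u x) with hA1
  set A2 : ℝ → ℝ := fun x => 2 * (BB T K (dx (dx u) x) (u x) + BB T K (dx u x) (dx u x)) with hA2
  have hd1 : ∀ x, HasDerivAt M1 (M2 x) x := by
    intro x
    refine hasDerivAt_param (f := fun y t => 2 * (u y t * dx u y t))
      (f' := fun x t => 2 * (dx u x t ^ 2 + u x t * dx (dx u) x t))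
      (by fun_prop) (by fun_prop) (fun x t => ?_) 0 T x
    refine (((w.hx x t).fun_mul (w.hxx x t)).const_mul 2).congr_deriv ?_
    ring
  have ha1 : ∀ x, HasDerivAt A1 (A2 x) x := by
    intro x
    exact (BB_deriv (T := T) cK cux cuxx cu cux w.hxx w.hx x).const_mul 2
  set F1 : ℝ → ℝ := fun x => M1 x + η * A1 x with hF1
  set F2 : ℝ → ℝ := fun x => M2 x + η * A2 x with hF2
  have hf1 : ∀ x, HasDerivAt F1 (F2 x) x := fun x => (hd1 x).add ((ha1 x).const_mul η)
  have hM2e : ∀ x, M2 x = ∫ t in (0 : ℝ)..T, (2 * (2 * dx u x t ^ 2 +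
        (u x t * gg N c (u x t) - 2 * GG N c (u x t)))) := by
    intro x
    have e1 : ∫ t in (0 : ℝ)..T, (dt u x t * dt u x t + u x t * dt (dt u) x t) = 0 := by
      refine int_deriv_zero (fun t => (w.ht x t).fun_mul (w.htt x t)) ?_ ?_
      · exact ((cont_t cut x).mul (cont_t cut x)).add ((cont_t cu x).mul (cont_t cutt x))
      · rw [h.zero, h.zero_T, zero_mul, zero_mul]
    have e2 := h.energy hT x
    have ix : ∀ f : ℝ → ℝ → ℝ, Continuous (fun p : ℝ × ℝ => f p.1 p.2) →
        IntervalIntegrable (fun t => f x t) volume 0 T := fun f hf => ii_t hf x 0 T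
    have e3 : M2 x = ∫ t in (0 : ℝ)..T, (2 * (2 * dx u x t ^ 2 +
        (u x t * gg N c (u x t) - 2 * GG N c (u x t))) +
        2 * (dt u x t * dt u x t + u x t * dt (dt u) x t) -
        4 * (dx u x t ^ 2 / 2 + dt u x t ^ 2 / 2 - GG N c (u x t))) := by
      simp only [hM2]
      refine intervalIntegral.integral_congr fun t _ => ?_
      have hw := h.wave x t
      have e : dx (dx u) x t = dt (dt u) x t + gg N c (u x t) := by rw [hw]; ring
      rw [e]
      ring
    rw [e3, intervalIntegral.integral_sub, intervalIntegral.integral_add,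
      intervalIntegral.integral_const_mul 2 (fun t => dt u x t * dt u x t + u x t * dt (dt u) x t),
      intervalIntegral.integral_const_mul 4, e1, e2, mul_zero, mul_zero, add_zero, sub_zero]
    · exact ix (fun x t => 2 * (2 * dx u x t ^ 2 + (u x t * gg N c (u x t) -
        2 * GG N c (u x t)))) (by fun_prop)
    · exact ix (fun x t => 2 * (dt u x t * dt u x t + u x t * dt (dt u) x t)) (by fun_prop)
    · exact (ix (fun x t => 2 * (2 * dx u x t ^ 2 + (u x t * gg N c (u x t) -
        2 * GG N c (u x t)))) (by fun_prop)).add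
        (ix (fun x t => 2 * (dt u x t * dt u x t + u x t * dt (dt u) x t)) (by fun_prop))
    · exact ix (fun x t => 4 * (dx u x t ^ 2 / 2 + dt u x t ^ 2 / 2 - GG N c (u x t)))
        (by fun_prop)
  -- the quadratic form
  have hB : ∀ x, BB T K (dx (dx u) x) (u x) = (∫ t in (0 : ℝ)..T, u x t ^ 2) +
      BB T K (fun t => gg N c (u x t) - c 1 * u x t) (u x) := by
    intro x
    have cux' := cont_t cu x
    have cutt' := cont_t cutt x
    have e1 : dx (dx u) x = fun t => (fun t => dt (dt u) x t + c 1 * u x t) t +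
        (fun t => gg N c (u x t) - c 1 * u x t) t := by
      funext t
      simp only
      rw [h.wave x t]
      ring
    have c1 : Continuous fun t => dt (dt u) x t + c 1 * u x t := by fun_prop
    have c2 : Continuous fun t => gg N c (u x t) - c 1 * u x t := by fun_prop
    rw [e1, BB_add cK c1 c2 cux', hK x]
  have hF2n : ∀ x, 2 * (2 - η * κ) * (∫ t in (0 : ℝ)..T, dx u x t ^ 2) ≤ F2 x := by
    intro x
    have cu' := cont_t cu x
    have cux' := cont_t cux x
    have c2 : Continuous fun t => gg N c (u x t) - c 1 * u x t := by fun_prop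
    have b1 := BB_self_le cK cux' (px x) hT
    have b2 := BB_mono_le cK sK c2 cu' hh0 hm (p x) hT (hr x)
    rw [← hκd] at b1 b2
    have b1' := (abs_le.1 b1).1
    have b2' := (abs_le.1 b2).1
    have i1 : ∫ t in (0 : ℝ)..T, η * κ * (|u x t| * hh |u x t|) ≤
        ∫ t in (0 : ℝ)..T, (η * u x t ^ 2 + (u x t * gg N c (u x t) - 2 * GG N c (u x t))) := by
      refine intervalIntegral.integral_mono_on hT.le ?_ ?_ fun t _ => hcrit x t
      · exact Continuous.intervalIntegrable (by fun_prop) _ _
      · exact Continuous.intervalIntegrable (by fun_prop) _ _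
    rw [intervalIntegral.integral_const_mul, intervalIntegral.integral_add,
      intervalIntegral.integral_const_mul] at i1
    rotate_left
    · exact Continuous.intervalIntegrable (by fun_prop) _ _
    · exact Continuous.intervalIntegrable (by fun_prop) _ _
    have e4 : M2 x = 4 * (∫ t in (0 : ℝ)..T, dx u x t ^ 2) +
        2 * ∫ t in (0 : ℝ)..T, (u x t * gg N c (u x t) - 2 * GG N c (u x t)) := by
      rw [hM2e x, ← intervalIntegral.integral_const_mul, ← intervalIntegral.integral_const_mul,
        ← intervalIntegral.integral_add]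
      · refine intervalIntegral.integral_congr fun t _ => ?_
        ring
      · exact Continuous.intervalIntegrable (by fun_prop) _ _
      · exact Continuous.intervalIntegrable (by fun_prop) _ _
    have e5 : A2 x = 2 * ((∫ t in (0 : ℝ)..T, u x t ^ 2) +
      BB T K (fun t => gg N c (u x t) - c 1 * u x t) (u x) + BB T K (dx u x) (dx u x)) := by
      simp only [hA2]
      rw [hB x]
    simp only [hF2]
    rw [e4, e5]
    have k1 := mul_le_mul_of_nonneg_left b1' hη
    have k2 := mul_le_mul_of_nonneg_left b2' hη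
    nlinarith [k1, k2, i1]
  have hpos : 0 < 2 - η * κ := by linarith
  have hI0 : ∀ x, 0 ≤ ∫ t in (0 : ℝ)..T, dx u x t ^ 2 := fun x =>
    intervalIntegral.integral_nonneg hT.le fun t _ => sq_nonneg _
  have hmono : Monotone F1 := by
    apply monotone_of_deriv_nonneg
    · intro x; exact (hf1 x).differentiableAt
    · intro x; rw [(hf1 x).deriv]
      exact le_trans (mul_nonneg (by linarith) (hI0 x)) (hF2n x)
  have hsm : ∀ ε > 0, ∃ X, 1 ≤ X ∧ ∀ x, X ≤ |x| → |F1 x| ≤ ε := by
    intro ε hε
    have hq : 0 < 2 * T * (1 + η * κ) := by positivity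
    set d := min 1 (ε / (2 * T * (1 + η * κ))) with hdd
    have hd0 : 0 < d := by positivity
    obtain ⟨X, hX1, hX⟩ := h.small hT hd0
    refine ⟨X, hX1, fun x hx => ?_⟩
    have h5 : d ≤ 1 := min_le_left _ _
    have h6 : d ≤ ε / (2 * T * (1 + η * κ)) := min_le_right _ _
    have h7 : d * (2 * T * (1 + η * κ)) ≤ ε := (le_div_iff₀ hq).1 h6
    have h8 : d * d ≤ d := by nlinarith
    have m1 : |M1 x| ≤ 2 * d * T := by
      apply abs_int_le hT
      intro t
      obtain ⟨h1, h2, h3⟩ := hX x t hx
      rw [abs_mul, abs_mul, abs_two]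
      have h9 : |u x t| * |dx u x t| ≤ d * d := mul_le_mul h1 h2 (abs_nonneg _) hd0.le
      linarith
    have m2 : |BB T K (dx u x) (u x)| ≤ κ * (d * T) := by
      rw [hκd]
      refine BB_le cK (cont_t cux x) (cont_t cu x) hT fun s => ?_
      unfold cor
      apply abs_int_le hT
      intro t
      rw [abs_mul]
      have h9 : |dx u x (t - s)| * |u x t| ≤ d * d :=
        mul_le_mul (hX x (t - s) hx).2.1 (hX x t hx).1 (abs_nonneg _) hd0.le
      linarith
    have m3 : |F1 x| ≤ |M1 x| + η * (2 * |BB T K (dx u x) (u x)|) := by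
      simp only [hF1, hA1]
      refine (abs_add_le _ _).trans ?_
      rw [abs_mul, abs_mul, abs_of_nonneg hη, abs_two]
    have m4 := mul_le_mul_of_nonneg_left m2 hη
    nlinarith [m1, m3, m4, h7]
  have hF10 : ∀ x, F1 x = 0 := by
    intro x
    apply le_antisymm
    · refine le_of_forall_pos_le_add fun ε hε => ?_
      obtain ⟨X, hX1, hX⟩ := hsm ε hε
      have h1 : x ≤ max x X := le_max_left _ _
      have h2 : X ≤ |max x X| := (le_max_right x X).trans (le_abs_self _)
      have h3 := hmono h1
      have h4 := hX _ h2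
      linarith [le_abs_self (F1 (max x X))]
    · refine le_of_forall_pos_le_add fun ε hε => ?_
      obtain ⟨X, hX1, hX⟩ := hsm ε hε
      have h1 : min x (-X) ≤ x := min_le_left _ _
      have h2 : X ≤ |min x (-X)| := by
        have h3 : min x (-X) ≤ -X := min_le_right _ _
        rw [abs_of_nonpos (by linarith)]
        linarith
      have h3 := hmono h1
      have h4 := hX _ h2
      linarith [neg_abs_le (F1 (min x (-X)))]
  have hF20 : ∀ x, F2 x = 0 := by
    intro x
    have e1 : F1 = fun _ => (0 : ℝ) := by funext x; exact hF10 x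
    have e2 := (hf1 x).deriv
    rw [e1] at e2
    simpa using e2.symm
  have hux : ∀ x t, dx u x t = 0 := by
    intro x t
    have h1 := hF2n x
    rw [hF20 x] at h1
    have h2 : (∫ t in (0 : ℝ)..T, dx u x t ^ 2) ≤ 0 := by
      by_contra hcon
      push Not at hcon
      have := mul_pos (mul_pos two_pos hpos) hcon
      linarith
    have h3 : ∀ s ∈ Icc 0 T, dx u x s ^ 2 = 0 :=
      zero_of_int ((cont_t cux x).pow 2) (fun s => sq_nonneg _) hT h2
    have hper : Function.Periodic (fun s => dx u x s) T := fun s => px x s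
    obtain ⟨y, hy, hy2⟩ := hper.exists_mem_Ico₀ hT t
    have := h3 y ⟨hy.1, hy.2.le⟩
    exact hy2.trans ((pow_eq_zero_iff two_ne_zero).1 this)
  intro x t
  have hcst : ∀ x y, u x t = u y t := by
    apply is_const_of_deriv_eq_zero
    · intro x; exact (w.hx x t).differentiableAt
    · intro x; rw [(w.hx x t).deriv, hux]
  have h0 : |u x t| ≤ 0 := by
    refine le_of_forall_pos_le_add fun ε hε => ?_
    obtain ⟨X, hX1, hX⟩ := h.small hT hε
    rw [hcst x X]
    have := (hX X t (le_abs_self X)).1
    linarith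
  exact abs_nonpos_iff.1 h0


end H93.Br
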