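import Mathlib
import Pool.Agent.H93.Br.Kab
import Pool.Agent.H93.Br.Fin

open MeasureTheory Set Filter Topology

namespace H93.Br

open H53.Br

variable {N : ℕ} {c : ℕ → ℝ} {T : ℝ} {u : ℝ → ℝ → ℝ}

/-- the kernel for functions changing sign under a half period -/
noncomputable def KA (T μ s : ℝ) : ℝ :=
  Real.sin (μ * (T / 4 - |s - T / 2|)) / (4 * μ * Real.cos (μ * T / 4))

lemma KA_cont (T μ : ℝ) : Continuous (KA T μ) := by
  unfold KA
  fun_prop

lemma KA_symm (T μ s : ℝ) : KA T μ (T - s) = KA T μ s := by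
  unfold KA
  have : T - s - T / 2 = - (s - T / 2) := by ring
  rw [this, abs_neg]

lemma KA_left {T μ s : ℝ} (hs : s ≤ T / 2) :
    KA T μ s = Real.sin (μ * (s - T / 4)) / (4 * μ * Real.cos (μ * T / 4)) := by
  unfold KA
  rw [abs_of_nonpos (by linarith)]
  congr 3
  ring

lemma KA_right {T μ s : ℝ} (hs : 0 ≤ s) (hs2 : s ≤ T / 2) : KA T μ (s + T / 2) = - KA T μ s := by
  rw [KA_left hs2]
  unfold KA
  have e1 : s + T / 2 - T / 2 = s := by ring
  rw [e1, abs_of_nonneg hs]
  have e2 : μ * (T / 4 - s) = - (μ * (s - T / 4)) := by ring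
  rw [e2, Real.sin_neg]
  ring

lemma cor_half {f g : ℝ → ℝ} (p : ∀ t, f (t + T / 2) = - f t) (s : ℝ) :
    cor T f g (s + T / 2) = - cor T f g s := by
  unfold cor
  rw [← intervalIntegral.integral_neg]
  refine intervalIntegral.integral_congr fun t _ => ?_
  have h1 := p (t - (s + T / 2))
  have h2 : t - (s + T / 2) + T / 2 = t - s := by ring
  rw [h2] at h1
  rw [h1]
  ring

lemma BB_half {f g : ℝ → ℝ} (μ : ℝ) (hT : 0 < T) (hf : Continuous f) (hg : Continuous g)
    (p : ∀ t, f (t + T / 2) = - f t) :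
    BB T (KA T μ) f g = 2 * ∫ s in (0 : ℝ)..(T / 2), KA T μ s * cor T f g s := by
  unfold BB
  have cF : Continuous fun s => KA T μ s * cor T f g s := (KA_cont T μ).mul (cor_cont hf hg)
  rw [← intervalIntegral.integral_add_adjacent_intervals (cF.intervalIntegrable 0 (T / 2))
    (cF.intervalIntegrable (T / 2) T)]
  have h1 : ∫ s in (T / 2)..T, KA T μ s * cor T f g s =
      ∫ s in (0 : ℝ)..(T / 2), KA T μ (s + T / 2) * cor T f g (s + T / 2) := by
    rw [intervalIntegral.integral_comp_add_right (fun s => KA T μ s * cor T f g s)]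
    congr 1 <;> ring
  have h2 : ∫ s in (0 : ℝ)..(T / 2), KA T μ (s + T / 2) * cor T f g (s + T / 2) =
      ∫ s in (0 : ℝ)..(T / 2), KA T μ s * cor T f g s := by
    refine intervalIntegral.integral_congr fun s hs => ?_
    rw [uIcc_of_le (by positivity)] at hs
    rw [KA_right hs.1 hs.2, cor_half p]
    ring
  rw [h1, h2]
  ring

/-- **The kernel inverts `d²/dt² + μ²` on half-period antisymmetric functions.** -/
theorem BB_anti {μ : ℝ} (hT : 0 < T) (hμ : μ ≠ 0) (hc : Real.cos (μ * T / 4) ≠ 0)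
    {f f1 f2 g : ℝ → ℝ} (hf : ∀ t, HasDerivAt f (f1 t) t) (hf1 : ∀ t, HasDerivAt f1 (f2 t) t)
    (cf2 : Continuous f2) (p : ∀ t, f (t + T / 2) = - f t) (p1 : ∀ t, f1 (t + T / 2) = - f1 t)
    (p2 : ∀ t, f2 (t + T / 2) = - f2 t) (cg : Continuous g) :
    BB T (KA T μ) (fun t => f2 t + μ ^ 2 * f t) g = ∫ t in (0 : ℝ)..T, f t * g t := by
  have cf : Continuous f := continuous_iff_continuousAt.2 fun t => (hf t).continuousAt
  have cf1 : Continuous f1 := continuous_iff_continuousAt.2 fun t => (hf1 t).continuousAt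
  have cF : Continuous (fun t => f2 t + μ ^ 2 * f t) := by fun_prop
  set D := 4 * μ * Real.cos (μ * T / 4) with hD
  have hD0 : D ≠ 0 := mul_ne_zero (mul_ne_zero four_ne_zero hμ) hc
  rw [BB_half μ hT cF cg (fun t => by simp only [p, p2]; ring)]
  set K0 : ℝ → ℝ := fun s => Real.sin (μ * (s - T / 4)) / D with hK0
  set K1 : ℝ → ℝ := fun s => (Real.cos (μ * (s - T / 4)) * μ) / D with hK1
  have hin : ∀ s, HasDerivAt (fun s : ℝ => μ * (s - T / 4)) μ s := by
    intro s
    have := ((hasDerivAt_id s).sub_const (T / 4)).const_mul μ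
    simpa using this
  have dK0 : ∀ s, HasDerivAt K0 (K1 s) s := fun s => (hin s).sin.div_const D
  have dK1 : ∀ s, HasDerivAt K1 (- (μ ^ 2 * K0 s)) s := by
    intro s
    have h1 := ((hin s).cos.mul_const μ).div_const D
    refine h1.congr_deriv ?_
    simp only [hK0]
    ring
  have cK0 : Continuous K0 := by
    rw [hK0]; fun_prop
  have hW : ∀ s, HasDerivAt (fun s => - (K0 s * cor T f1 g s) - K1 s * cor T f g s)
      (K0 s * cor T (fun t => f2 t + μ ^ 2 * f t) g s) s := by
    intro s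
    have d0 := cor_deriv (T := T) hf cf cf1 cg s
    have d1 := cor_deriv (T := T) hf1 cf1 cf2 cg s
    have h1 := ((dK0 s).mul d1).neg.sub ((dK1 s).mul d0)
    refine h1.congr_deriv ?_
    rw [cor_add cf2 (by fun_prop) cg, cor_smul]
    ring
  have h2 : ∫ s in (0 : ℝ)..(T / 2), KA T μ s * cor T (fun t => f2 t + μ ^ 2 * f t) g s =
      ∫ s in (0 : ℝ)..(T / 2), K0 s * cor T (fun t => f2 t + μ ^ 2 * f t) g s := by
    refine intervalIntegral.integral_congr fun s hs => ?_
    rw [uIcc_of_le (by positivity)] at hs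
    rw [KA_left hs.2]
  rw [h2, intervalIntegral.integral_eq_sub_of_hasDerivAt (fun s _ => hW s)
    ((cK0.mul (cor_cont cF cg)).intervalIntegrable _ _)]
  have c0 : cor T f g (T / 2) = - cor T f g 0 := by
    have := cor_half (g := g) p 0
    rw [zero_add] at this
    exact this
  have c1 : cor T f1 g (T / 2) = - cor T f1 g 0 := by
    have := cor_half (g := g) p1 0
    rw [zero_add] at this
    exact this
  have k0 : K0 (T / 2) + K0 0 = 0 := by
    simp only [hK0]
    have a1 : μ * (0 - T / 4) = - (μ * T / 4) := by ring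
    have a2 : μ * (T / 2 - T / 4) = μ * T / 4 := by ring
    rw [a1, a2, Real.sin_neg]
    ring
  have k1 : K1 (T / 2) + K1 0 = 1 / 2 := by
    simp only [hK1]
    have a1 : μ * (0 - T / 4) = - (μ * T / 4) := by ring
    have a2 : μ * (T / 2 - T / 4) = μ * T / 4 := by ring
    rw [a1, a2, Real.cos_neg, hD]
    field_simp
    norm_num
  have c2 : cor T f g 0 = ∫ t in (0 : ℝ)..T, f t * g t := by
    unfold cor
    refine intervalIntegral.integral_congr fun t _ => ?_
    rw [sub_zero]
  rw [c0, c1, ← c2]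
  linear_combination 2 * (cor T f1 g 0) * k0 + 2 * (cor T f g 0) * k1

/-- the `L¹` norm of the kernel -/
lemma KA_norm {μ : ℝ} (hT : 0 < T) (hμ : 0 < μ) (h1 : Real.pi / 2 < μ * T / 4)
    (h2 : μ * T / 4 ≤ Real.pi) :
    ∫ s in (0 : ℝ)..T, |KA T μ s| = (1 + 1 / |Real.cos (μ * T / 4)|) / μ ^ 2 := by
  have hcos : Real.cos (μ * T / 4) < 0 := by
    have h3 : Real.pi < 3 * Real.pi / 2 := by linarith [Real.pi_pos]
    exact Real.cos_neg_of_pi_div_two_lt_of_lt h1 (by linarith)
  set D := 4 * μ * Real.cos (μ * T / 4) with hD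
  have hDn : D < 0 := by
    rw [hD]
    exact mul_neg_of_pos_of_neg (by positivity) hcos
  have cA : Continuous fun s => |KA T μ s| := (KA_cont T μ).abs
  rw [← intervalIntegral.integral_add_adjacent_intervals (cA.intervalIntegrable 0 (T / 2))
    (cA.intervalIntegrable (T / 2) T)]
  have e1 : ∫ s in (T / 2)..T, |KA T μ s| = ∫ s in (0 : ℝ)..(T / 2), |KA T μ (s + T / 2)| := by
    rw [intervalIntegral.integral_comp_add_right (fun s => |KA T μ s|)]
    congr 1 <;> ring
  have e2 : ∫ s in (0 : ℝ)..(T / 2), |KA T μ (s + T / 2)| = ∫ s in (0 : ℝ)..(T / 2), |KA T μ s| := by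
    refine intervalIntegral.integral_congr fun s hs => ?_
    rw [uIcc_of_le (by positivity)] at hs
    rw [KA_right hs.1 hs.2, abs_neg]
  have e3 : ∫ s in (0 : ℝ)..(T / 2), |KA T μ s| =
      ∫ s in (0 : ℝ)..(T / 2), |Real.sin (μ * (s - T / 4))| * (1 / (-D)) := by
    refine intervalIntegral.integral_congr fun s hs => ?_
    rw [uIcc_of_le (by positivity)] at hs
    rw [KA_left hs.2, abs_div, ← hD, abs_of_neg hDn]
    ring
  have e4 : ∫ s in (0 : ℝ)..(T / 2), |Real.sin (μ * (s - T / 4))| =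
      ∫ s in (-(T / 4))..(T / 4), |Real.sin (μ * s)| := by
    rw [intervalIntegral.integral_comp_sub_right (fun s => |Real.sin (μ * s)|)]
    congr 1 <;> ring
  have cS : Continuous fun s => |Real.sin (μ * s)| := by fun_prop
  have e5 : ∫ s in (-(T / 4))..(T / 4), |Real.sin (μ * s)| =
      2 * ∫ s in (0 : ℝ)..(T / 4), |Real.sin (μ * s)| := by
    rw [← intervalIntegral.integral_add_adjacent_intervals (cS.intervalIntegrable (-(T / 4)) 0)
      (cS.intervalIntegrable 0 (T / 4))]
    have : ∫ s in (-(T / 4))..0, |Real.sin (μ * s)| = ∫ s in (0 : ℝ)..(T / 4), |Real.sin (μ * s)| := by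
      have h3 := intervalIntegral.integral_comp_neg (a := 0) (b := T / 4)
        (fun s => |Real.sin (μ * s)|)
      rw [neg_zero] at h3
      rw [← h3]
      refine intervalIntegral.integral_congr fun s _ => ?_
      rw [mul_neg, Real.sin_neg, abs_neg]
    rw [this]
    ring
  have e6 : ∫ s in (0 : ℝ)..(T / 4), |Real.sin (μ * s)| =
      ∫ s in (0 : ℝ)..(T / 4), Real.sin (μ * s) := by
    refine intervalIntegral.integral_congr fun s hs => ?_
    rw [uIcc_of_le (by positivity)] at hs
    refine abs_of_nonneg (Real.sin_nonneg_of_nonneg_of_le_pi (mul_nonneg hμ.le hs.1) ?_)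
    have : μ * s ≤ μ * (T / 4) := mul_le_mul_of_nonneg_left hs.2 hμ.le
    linarith
  have e7 : ∫ s in (0 : ℝ)..(T / 4), Real.sin (μ * s) = (1 - Real.cos (μ * T / 4)) / μ := by
    have h3 := intervalIntegral.integral_comp_mul_left (a := 0) (b := T / 4)
      (fun s => Real.sin s) hμ.ne'
    rw [h3, mul_zero, integral_sin, Real.cos_zero, smul_eq_mul]
    have : μ * (T / 4) = μ * T / 4 := by ring
    rw [this]
    field_simp
  rw [e1, e2, e3, intervalIntegral.integral_mul_const, e4, e5, e6, e7, abs_of_neg hcos]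
  have hcn : Real.cos (μ * T / 4) ≠ 0 := hcos.ne
  rw [hD]
  field_simp
  ring

end H93.Br
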