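import Mathlib
import Pool.Agent.H53.Br.Kern

open MeasureTheory Set Filter Topology

namespace H93.Br

open H53.Br

variable {T : ℝ}

/-- Chebyshev's association inequality with a weight. -/
lemma wcheb {w p h : ℝ → ℝ} (hw : Continuous w) (hp : Continuous p) (hh : Continuous h)
    (hm : MonotoneOn h (Ici 0)) (hp0 : ∀ t, 0 ≤ p t) (hT : 0 < T) :
    (∫ t in (0 : ℝ)..T, |w t| * p t) * (∫ t in (0 : ℝ)..T, h |w t| * p t) ≤
      (∫ t in (0 : ℝ)..T, p t) * ∫ t in (0 : ℝ)..T, |w t| * h |w t| * p t := by
  have key : ∀ a b : ℝ, 0 ≤ a → 0 ≤ b → a * h b + b * h a ≤ a * h a + b * h b := by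
    intro a b ha hb
    rcases le_total a b with hab | hab
    · have := hm ha hb hab
      nlinarith
    · have := hm hb ha hab
      nlinarith
  have ix : ∀ f : ℝ → ℝ, Continuous f → IntervalIntegrable f volume 0 T :=
    fun f hf => hf.intervalIntegrable _ _
  set A := ∫ t in (0 : ℝ)..T, |w t| * p t with hA
  set B := ∫ t in (0 : ℝ)..T, h |w t| * p t with hB
  set P := ∫ t in (0 : ℝ)..T, p t with hP
  set D := ∫ t in (0 : ℝ)..T, |w t| * h |w t| * p t with hD
  have h1 : ∀ s, |w s| * B + h |w s| * A ≤ |w s| * h |w s| * P + D := by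
    intro s
    have h2 : ∫ t in (0 : ℝ)..T, (|w s| * (h |w t| * p t) + h |w s| * (|w t| * p t)) ≤
        ∫ t in (0 : ℝ)..T, (|w s| * h |w s| * p t + |w t| * h |w t| * p t) := by
      refine intervalIntegral.integral_mono_on hT.le (ix _ (by fun_prop)) (ix _ (by fun_prop))
        fun t _ => ?_
      have := mul_le_mul_of_nonneg_right (key |w s| |w t| (abs_nonneg _) (abs_nonneg _)) (hp0 t)
      linarith
    rw [intervalIntegral.integral_add (ix _ (by fun_prop)) (ix _ (by fun_prop)),
      intervalIntegral.integral_add (ix _ (by fun_prop)) (ix _ (by fun_prop)),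
      intervalIntegral.integral_const_mul, intervalIntegral.integral_const_mul,
      intervalIntegral.integral_const_mul] at h2
    exact h2
  have h3 : ∫ s in (0 : ℝ)..T, ((|w s| * p s) * B + (h |w s| * p s) * A) ≤
      ∫ s in (0 : ℝ)..T, ((|w s| * h |w s| * p s) * P + p s * D) := by
    refine intervalIntegral.integral_mono_on hT.le (ix _ (by fun_prop)) (ix _ (by fun_prop))
      fun s _ => ?_
    have := mul_le_mul_of_nonneg_right (h1 s) (hp0 s)
    linarith
  rw [intervalIntegral.integral_add (ix _ (by fun_prop)) (ix _ (by fun_prop)),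
    intervalIntegral.integral_add (ix _ (by fun_prop)) (ix _ (by fun_prop)),
    intervalIntegral.integral_mul_const, intervalIntegral.integral_mul_const,
    intervalIntegral.integral_mul_const, intervalIntegral.integral_mul_const] at h3
  rw [← hA, ← hB, ← hP, ← hD] at h3
  linarith

/-- the mean of `|sin|` -/
lemma int_abs_sin {μ : ℝ} (hT : 0 < T) {n : ℕ} (hn : μ * T = 2 * Real.pi * n) (hn1 : 1 ≤ n) :
    ∫ t in (0 : ℝ)..T, |Real.sin (μ * t)| = 2 * T / Real.pi := by
  have hn' : (1 : ℝ) ≤ n := by exact_mod_cast hn1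
  have hμ : 0 < μ := by
    have h1 : 0 < μ * T := by rw [hn]; have := Real.pi_pos; positivity
    exact (pos_iff_pos_of_mul_pos h1).2 hT
  have h1 := intervalIntegral.integral_comp_mul_left (a := 0) (b := T)
    (fun s => |Real.sin s|) hμ.ne'
  rw [h1, mul_zero, hn, smul_eq_mul]
  have hper : Function.Periodic (fun s => |Real.sin s|) Real.pi := by
    intro s
    simp only [Real.sin_add_pi, abs_neg]
  have h2 := hper.intervalIntegral_add_zsmul_eq (2 * n : ℤ) 0 (by
    intro a b; exact (by fun_prop : Continuous fun s => |Real.sin s|).intervalIntegrable a b)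
  have h3 : ∫ x in (0 : ℝ)..(0 + Real.pi), |Real.sin x| = 2 := by
    rw [zero_add]
    have : ∫ x in (0 : ℝ)..Real.pi, |Real.sin x| = ∫ x in (0 : ℝ)..Real.pi, Real.sin x := by
      refine intervalIntegral.integral_congr fun s hs => ?_
      rw [uIcc_of_le Real.pi_pos.le] at hs
      exact abs_of_nonneg (Real.sin_nonneg_of_nonneg_of_le_pi hs.1 hs.2)
    rw [this, integral_sin, Real.cos_zero, Real.cos_pi]
    norm_num
  rw [h3] at h2
  have h4 : (0 : ℝ) + ((2 * n : ℤ)) • Real.pi = 2 * Real.pi * n := by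
    rw [zsmul_eq_mul]; push_cast; ring
  rw [h4] at h2
  rw [h2, zsmul_eq_mul]
  push_cast
  have hT2 : μ = 2 * Real.pi * n / T := by rw [← hn]; field_simp
  rw [hT2]
  have := Real.pi_pos
  field_simp

end H93.Br
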