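import Mathlib
import Pool.Agent.H93.Br.Fin

open MeasureTheory Set Filter Topology Real

namespace H93.Br

open H53.Br

variable {N : ℕ} {c : ℕ → ℝ} {T : ℝ} {u : ℝ → ℝ → ℝ}

/-- The criterion, with the improvement for short periods. -/
theorem crit (hN : 1 ≤ N) (h : IsBreather N c T u) (hT : 0 < T) {n m : ℕ}
    (hnm : m = n ∨ (n = 1 ∧ m = 2 ∧ c 1 ≤ (2 * (2 * π / T)) ^ 2))
    {lam bet η : ℝ} (hl : lam = c 1 - (n * (2 * π / T)) ^ 2)
    (hb : bet = ((m + 1) * (2 * π / T)) ^ 2 - c 1) (hlam : 0 < lam) (hbet : 0 < bet)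
    (hη : 0 < η) (hη2 : η < 2 * bet)
    (hpt : ∀ x t, 0 ≤ η + ∑ j ∈ Finset.Icc 2 N, ((((j : ℝ) - 1) / j - η / bet) * c j
      - 2 * n * (η / lam + η / bet) * |c j|) * (u x t ^ 2) ^ (j - 1)) :
    ∀ x t, u x t = 0 := by
  have hpt' : ∀ x t, 0 ≤ η + ∑ j ∈ Finset.Icc 2 N, ((((j : ℝ) - 1) / j - η / bet) * c j
      - 2 * n * (η / bet + η / lam) * |c j|) * u x t ^ (2 * (j - 1)) := by
    intro x t
    have := hpt x t
    simp only [← pow_mul, add_comm (η / lam) (η / bet)] at this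
    exact this
  rcases hnm with rfl | ⟨rfl, rfl, hc⟩
  · exact vanish hN h hT le_rfl (fun x k h1 h2 => absurd h1 (not_lt.2 h2)) hlam hbet hl hb hη hη2
      hpt'
  · refine vanish hN h hT one_le_two (fun x k h1 h2 => ?_) hlam hbet hl hb hη hη2 hpt'
    have hk : k = 2 := by omega
    subst hk
    have hanti := anti hN h hT (by
      refine hc.trans (le_of_eq ?_)
      ring)
    exact_mod_cast sc_two hT (cont_t h.w.cu x) (hanti x)

/-- No breathers for `g = c₁u + c₂u³ + c₃u⁵` when `c₃ > 0` and `c₂²` is small compared to `c₃`. -/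
theorem quintic (h : IsBreather 3 c T u) (hT : 0 < T) {n m : ℕ} (hn : 1 ≤ n)
    (hnm : m = n ∨ (n = 1 ∧ m = 2 ∧ c 1 ≤ (2 * (2 * π / T)) ^ 2))
    {lam bet : ℝ} (hl : lam = c 1 - (n * (2 * π / T)) ^ 2)
    (hb : bet = ((m + 1) * (2 * π / T)) ^ 2 - c 1) (hlam : 0 < lam) (hbet : 0 < bet)
    (hc3 : 0 < c 3) (hc : (14 * n / lam + (14 * n - 1) / bet) * c 2 ^ 2 ≤ 16 / 3 * c 3)
    (hc2 : c 2 ≤ 0) :
    ∀ x t, u x t = 0 := by
  set a := 1 / bet with ha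
  set ρ := 2 * n * (1 / lam + 1 / bet) with hρ
  have ha0 : 0 < a := by positivity
  have hn' : (1 : ℝ) ≤ n := by exact_mod_cast hn
  have hl0 : 0 < 1 / lam := by positivity
  have hρa : 2 * a ≤ ρ := by
    have h1 : 2 * 1 * (0 + 1 / bet) ≤ 2 * n * (1 / lam + 1 / bet) := by gcongr
    rw [hρ]
    linarith
  have hc' : (7 * ρ - a) * c 2 ^ 2 ≤ 16 / 3 * c 3 := by
    have : 7 * ρ - a = 14 * n / lam + (14 * n - 1) / bet := by
      rw [hρ, ha]; ring
    rw [this]; exact hc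
  set s := 5 * ρ + a with hs
  have hs0 : 0 < s := by linarith
  refine crit (by norm_num) h hT hnm (η := 1 / s) hl hb hlam hbet (by positivity) ?_ ?_
  · rw [div_lt_iff₀ hs0]
    have : a * bet = 1 := by rw [ha]; field_simp
    nlinarith
  · intro x t
    have hI : Finset.Icc 2 3 = ({2, 3} : Finset ℕ) := by decide
    rw [hI, Finset.sum_pair (by norm_num), abs_of_nonpos hc2, abs_of_pos hc3]
    set y := u x t ^ 2 with hy
    have hy0 : 0 ≤ y := sq_nonneg _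
    have e1 : 2 * (n : ℝ) * (1 / s / lam + 1 / s / bet) = ρ / s := by rw [hρ]; ring
    have e2 : 1 / s / bet = a / s := by rw [ha]; ring
    have e3 : 1 / s + ((((2 : ℕ) : ℝ) - 1) / ((2 : ℕ) : ℝ) - 1 / s / bet) * c 2 * y ^ (2 - 1)
        - 2 * (n : ℝ) * (1 / s / lam + 1 / s / bet) * (-c 2) * y ^ (2 - 1)
        + ((((3 : ℕ) : ℝ) - 1) / ((3 : ℕ) : ℝ) - 1 / s / bet) * c 3 * y ^ (3 - 1)
        - 2 * (n : ℝ) * (1 / s / lam + 1 / s / bet) * c 3 * y ^ (3 - 1)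
        = (1 / s) * (1 + (7 * ρ - a) / 2 * (c 2 * y) + (7 * ρ - a) / 3 * (c 3 * y ^ 2)) := by
      rw [e1, e2]
      norm_num
      field_simp
      rw [hs]
      ring
    have h7 : 0 < 7 * ρ - a := by linarith
    have h8 : 0 ≤ 1 + (7 * ρ - a) / 2 * (c 2 * y) + (7 * ρ - a) / 3 * (c 3 * y ^ 2) := by
      have h9 : (7 * ρ - a) * ((7 * ρ - a) * c 2 ^ 2) * y ^ 2 ≤
          (7 * ρ - a) * (16 / 3 * c 3) * y ^ 2 := by gcongr
      nlinarith [sq_nonneg (1 + (7 * ρ - a) / 4 * (c 2 * y))]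
    have h9 : 0 ≤ (1 / s) * (1 + (7 * ρ - a) / 2 * (c 2 * y) + (7 * ρ - a) / 3 * (c 3 * y ^ 2)) :=
      mul_nonneg (by positivity) h8
    rw [← e3] at h9
    refine le_trans h9 (le_of_eq ?_)
    ring

end H93.Br
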