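import Mathlib
import Pool.Agent.H93.Br.Anti

open MeasureTheory Set Filter Topology

namespace H93.Br

open H53.Br

variable {N : ℕ} {c : ℕ → ℝ} {T : ℝ} {u : ℝ → ℝ → ℝ}

/-- The criterion, both kernels. -/
theorem crit_kernel (hN : 1 ≤ N) (hu : IsBreather N c T u) (hT : 0 < T) (hc : 0 < c 1) {κ : ℝ}
    (hκ : (∃ a : ℝ, Real.sin (√(c 1) * T / 2) ≠ 0 ∧ κ = ∫ s in (0 : ℝ)..T,
        |(Real.cos (√(c 1) * (s - T / 2)) - a) / (2 * √(c 1) * Real.sin (√(c 1) * T / 2))|) ∨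
      (2 * Real.pi < √(c 1) * T ∧ √(c 1) * T ≤ 4 * Real.pi ∧
        κ = (1 + 1 / |Real.cos (√(c 1) * T / 4)|) / c 1))
    {η : ℝ} (hη : 0 ≤ η) (hηκ : η * κ < 2) {h : ℝ → ℝ} (hh : Continuous h)
    (hm : MonotoneOn h (Ici 0))
    (hr : ∀ x t, |gg N c (u x t) - c 1 * u x t| ≤ h |u x t|)
    (hcrit : ∀ x t, η * κ * (|u x t| * h |u x t|) ≤
      η * u x t ^ 2 + (u x t * gg N c (u x t) - 2 * GG N c (u x t))) :
    ∀ x t, u x t = 0 := by
  have hμ2 : √(c 1) ^ 2 = c 1 := Real.sq_sqrt hc.le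
  have hμ : 0 < √(c 1) := Real.sqrt_pos.2 hc
  have w := hu.w
  have p := hu.periodic
  have pt := w.per_t p
  have px := w.per_x p
  have pxx : ∀ x t, dx (dx u) x (t + T) = dx (dx u) x t := by
    intro x t
    have e : (fun y => dx u y (t + T)) = fun y => dx u y t := by funext y; exact px y t
    unfold dx at e ⊢
    exact congrArg (fun f => deriv f x) e
  have hsq : ∀ x, ∫ t in (0 : ℝ)..T, u x t * u x t = ∫ t in (0 : ℝ)..T, u x t ^ 2 := by
    intro x
    refine intervalIntegral.integral_congr fun t _ => ?_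
    ring
  rcases hκ with ⟨a, hs, hκ⟩ | ⟨h1, h2, hκ⟩
  · refine kernel_abs hN hu hT (KK_cont T √(c 1) a) (KK_symm T √(c 1) a) (fun x => ?_) hκ hη hηκ
      hh hm hr hcrit
    have h3 := BB_kernel (T := T) (a := a) hμ.ne' hs (w.ht x) (w.htt x) (cont_t w.cutt x) (p x)
      (pt x) (fun t => by
        have e2 := hu.wave x t
        have e3 := hu.wave x (t + T)
        rw [e3, e2, pxx, p]) (cont_t w.cu x) (hu.mean_zero hN hT x)
    rw [hμ2] at h3
    rw [h3, hsq]
  · have hT' : T ≠ 0 := hT.ne'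
    have hanti := anti hN hu hT (by
      have h4 : √(c 1) ≤ 4 * Real.pi / T := by
        rw [le_div_iff₀ hT]; exact h2
      calc c 1 = √(c 1) ^ 2 := hμ2.symm
        _ ≤ (4 * Real.pi / T) ^ 2 := by gcongr)
    have q1 : Real.pi / 2 < √(c 1) * T / 4 := by linarith
    have q2 : √(c 1) * T / 4 ≤ Real.pi := by linarith
    have hcos : Real.cos (√(c 1) * T / 4) ≠ 0 := by
      have h3 : Real.pi < 3 * Real.pi / 2 := by linarith [Real.pi_pos]
      exact (Real.cos_neg_of_pi_div_two_lt_of_lt q1 (by linarith)).ne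
    have at1 : ∀ x t, dt u x (t + T / 2) = - dt u x t := by
      intro x t
      have e1 := w.ht x (t + T / 2)
      have e2 : HasDerivAt (fun s => u x (s + T / 2)) (dt u x (t + T / 2)) t := by
        have := e1.comp t ((hasDerivAt_id t).add_const (T / 2))
        simpa [Function.comp_def] using this
      have e3 : (fun s => u x (s + T / 2)) = fun s => - u x s := by
        funext s; exact hanti x s
      rw [e3] at e2
      exact e2.unique (w.ht x t).neg
    have at2 : ∀ x t, dt (dt u) x (t + T / 2) = - dt (dt u) x t := by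
      intro x t
      have e1 := w.htt x (t + T / 2)
      have e2 : HasDerivAt (fun s => dt u x (s + T / 2)) (dt (dt u) x (t + T / 2)) t := by
        have := e1.comp t ((hasDerivAt_id t).add_const (T / 2))
        simpa [Function.comp_def] using this
      have e3 : (fun s => dt u x (s + T / 2)) = fun s => - dt u x s := by
        funext s; exact at1 x s
      rw [e3] at e2
      exact e2.unique (w.htt x t).neg
    have hn := KA_norm hT hμ q1 q2
    rw [hμ2] at hn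
    refine kernel_abs hN hu hT (KA_cont T √(c 1)) (KA_symm T √(c 1)) (fun x => ?_)
      (hκ.trans hn.symm) hη hηκ hh hm hr hcrit
    have h3 := BB_anti (T := T) hT hμ.ne' hcos (w.ht x) (w.htt x) (cont_t w.cutt x) (hanti x)
      (at1 x) (at2 x) (cont_t w.cu x)
    rw [hμ2] at h3
    rw [h3, hsq]

/-- The criterion in terms of the coefficients. -/
theorem crit_coeff (hN : 1 ≤ N) (hu : IsBreather N c T u) (hT : 0 < T) (hc : 0 < c 1) {κ : ℝ}
    (hκ : (∃ a : ℝ, Real.sin (√(c 1) * T / 2) ≠ 0 ∧ κ = ∫ s in (0 : ℝ)..T,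
        |(Real.cos (√(c 1) * (s - T / 2)) - a) / (2 * √(c 1) * Real.sin (√(c 1) * T / 2))|) ∨
      (2 * Real.pi < √(c 1) * T ∧ √(c 1) * T ≤ 4 * Real.pi ∧
        κ = (1 + 1 / |Real.cos (√(c 1) * T / 4)|) / c 1))
    {η : ℝ} (hη : 0 ≤ η) (hηκ : η * κ < 2)
    (hcrit : ∀ x t, 0 ≤ η + ∑ j ∈ Finset.Icc 2 N, ((((j : ℝ) - 1) / j) * c j - η * κ * |c j|) *
      (u x t ^ 2) ^ (j - 1)) :
    ∀ x t, u x t = 0 := by
  refine crit_kernel hN hu hT hc hκ hη hηκ (h := fun y => ∑ j ∈ Finset.Icc 2 N,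
    |c j| * y ^ (2 * j - 1)) (by fun_prop) ?_ ?_ ?_
  · intro p hp q _ hpq
    refine Finset.sum_le_sum fun j _ => ?_
    have hp' : (0 : ℝ) ≤ p := hp
    have := pow_le_pow_left₀ hp' hpq (2 * j - 1)
    exact mul_le_mul_of_nonneg_left this (abs_nonneg _)
  · intro x t
    rw [gg_split hN, add_sub_cancel_left]
    refine (Finset.abs_sum_le_sum_abs _ _).trans (le_of_eq (Finset.sum_congr rfl fun j _ => ?_))
    rw [abs_mul, abs_pow]
  · intro x t
    have h1 := hcrit x t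
    have h2 : |u x t| * ∑ j ∈ Finset.Icc 2 N, |c j| * |u x t| ^ (2 * j - 1) =
        ∑ j ∈ Finset.Icc 2 N, |c j| * u x t ^ (2 * j) := by
      rw [Finset.mul_sum]
      refine Finset.sum_congr rfl fun j hj => ?_
      rw [Finset.mem_Icc] at hj
      have e1 : u x t ^ (2 * j) = |u x t| ^ (2 * j) := by
        rw [pow_mul, pow_mul, sq_abs]
      have e2 : 2 * j = (2 * j - 1) + 1 := by omega
      rw [e1, e2, pow_succ]
      simp only [Nat.add_sub_cancel]
      ring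
    have h3 : u x t * gg N c (u x t) - 2 * GG N c (u x t) =
        ∑ j ∈ Finset.Icc 2 N, (((j : ℝ) - 1) / j) * c j * u x t ^ (2 * j) := by
      rw [gg_split hN, GG_split hN, mul_add, Finset.mul_sum]
      have e3 : u x t * (c 1 * u x t) + ∑ j ∈ Finset.Icc 2 N, u x t * (c j * u x t ^ (2 * j - 1)) -
          (c 1 * u x t ^ 2 + ∑ j ∈ Finset.Icc 2 N, c j / j * u x t ^ (2 * j)) =
          ∑ j ∈ Finset.Icc 2 N, (u x t * (c j * u x t ^ (2 * j - 1)) -
            c j / j * u x t ^ (2 * j)) := by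
        rw [Finset.sum_sub_distrib]
        ring
      rw [e3]
      refine Finset.sum_congr rfl fun j hj => ?_
      rw [Finset.mem_Icc] at hj
      have hj0 : (j : ℝ) ≠ 0 := by
        have : 0 < j := by omega
        positivity
      have e4 : u x t * (c j * u x t ^ (2 * j - 1)) = c j * u x t ^ (2 * j) := by
        have : 2 * j = (2 * j - 1) + 1 := by omega
        rw [this, pow_succ]
        simp only [Nat.add_sub_cancel]
        ring
      rw [e4]
      field_simp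
    have h4 : η * u x t ^ 2 + ∑ j ∈ Finset.Icc 2 N, (((j : ℝ) - 1) / j) * c j * u x t ^ (2 * j) -
        η * κ * ∑ j ∈ Finset.Icc 2 N, |c j| * u x t ^ (2 * j) =
        u x t ^ 2 * (η + ∑ j ∈ Finset.Icc 2 N, ((((j : ℝ) - 1) / j) * c j - η * κ * |c j|) *
          (u x t ^ 2) ^ (j - 1)) := by
      have e5 : ∑ j ∈ Finset.Icc 2 N, (((j : ℝ) - 1) / j) * c j * u x t ^ (2 * j) -
          η * κ * ∑ j ∈ Finset.Icc 2 N, |c j| * u x t ^ (2 * j) =
          u x t ^ 2 * ∑ j ∈ Finset.Icc 2 N, ((((j : ℝ) - 1) / j) * c j - η * κ * |c j|) *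
          (u x t ^ 2) ^ (j - 1) := by
        rw [Finset.mul_sum, Finset.mul_sum, ← Finset.sum_sub_distrib]
        refine Finset.sum_congr rfl fun j hj => ?_
        rw [Finset.mem_Icc] at hj
        have : u x t ^ (2 * j) = u x t ^ 2 * (u x t ^ 2) ^ (j - 1) := by
          rw [← pow_succ', ← pow_mul]
          congr 1
          omega
        rw [this]
        ring
      linear_combination e5
    have h5 : 0 ≤ u x t ^ 2 * (η + ∑ j ∈ Finset.Icc 2 N, ((((j : ℝ) - 1) / j) * c j -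
        η * κ * |c j|) * (u x t ^ 2) ^ (j - 1)) := mul_nonneg (sq_nonneg _) h1
    rw [h2, h3]
    linarith

/-- No breathers for `g = c₁u + c₂u³ + c₃u⁵` when `c₂ ≤ 0 < c₃` and `c₂² ≤ 16 c₃ / (21 κ)`. -/
theorem quintic_kernel (hu : IsBreather 3 c T u) (hT : 0 < T) (hc : 0 < c 1) {κ : ℝ}
    (hκ : (∃ a : ℝ, Real.sin (√(c 1) * T / 2) ≠ 0 ∧ κ = ∫ s in (0 : ℝ)..T,
        |(Real.cos (√(c 1) * (s - T / 2)) - a) / (2 * √(c 1) * Real.sin (√(c 1) * T / 2))|) ∨
      (2 * Real.pi < √(c 1) * T ∧ √(c 1) * T ≤ 4 * Real.pi ∧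
        κ = (1 + 1 / |Real.cos (√(c 1) * T / 4)|) / c 1))
    (hκ0 : 0 < κ) (hc3 : 0 < c 3) (hc2 : c 2 ≤ 0) (h23 : 21 * κ * c 2 ^ 2 ≤ 16 * c 3) :
    ∀ x t, u x t = 0 := by
  refine crit_coeff (by norm_num) hu hT hc hκ (η := 1 / (5 * κ)) (by positivity) ?_ ?_
  · have : 1 / (5 * κ) * κ = 1 / 5 := by field_simp
    rw [this]; norm_num
  · intro x t
    have hI : Finset.Icc 2 3 = ({2, 3} : Finset ℕ) := by decide
    rw [hI, Finset.sum_pair (by norm_num), abs_of_nonpos hc2, abs_of_pos hc3]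
    have e1 : 1 / (5 * κ) * κ = 1 / 5 := by field_simp
    rw [e1]
    set y := u x t ^ 2 with hy
    have hy0 : 0 ≤ y := sq_nonneg _
    have e2 : 1 / (5 * κ) + (((((2 : ℕ) : ℝ) - 1) / ((2 : ℕ) : ℝ) * c 2 - 1 / 5 * -c 2) *
        y ^ (2 - 1) + ((((3 : ℕ) : ℝ) - 1) / ((3 : ℕ) : ℝ) * c 3 - 1 / 5 * c 3) * y ^ (3 - 1)) =
        (1 / κ) * (1 / 5 + 7 / 10 * (κ * c 2 * y) + 7 / 15 * (κ * c 3 * y ^ 2)) := by
      norm_num
      field_simp
      ring
    rw [e2]
    refine mul_nonneg (by positivity) ?_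
    have h9 : κ * (21 * κ * c 2 ^ 2) * y ^ 2 ≤ κ * (16 * c 3) * y ^ 2 := by gcongr
    nlinarith [sq_nonneg (1 + 7 / 4 * (κ * c 2 * y))]

/-- The criterion, all cases; `η = 0` is the star-shaped condition, for all periods. -/
theorem crit_all (hN : 1 ≤ N) (hu : IsBreather N c T u) (hT : 0 < T) {κ η : ℝ}
    (hκ : η = 0 ∨ (Real.sin (√(c 1) * T / 2) ≠ 0 ∧ ∃ a : ℝ, κ = ∫ s in (0 : ℝ)..T,
        |Real.cos (√(c 1) * (s - T / 2)) - a| / (2 * √(c 1) * |Real.sin (√(c 1) * T / 2)|)) ∨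
      (2 * Real.pi < √(c 1) * T ∧ √(c 1) * T ≤ 4 * Real.pi ∧
        κ = (1 + 1 / |Real.cos (√(c 1) * T / 4)|) / c 1))
    (hη : 0 ≤ η) (hηκ : η * κ < 2) {h : ℝ → ℝ} (hh : Continuous h)
    (hm : MonotoneOn h (Ici 0))
    (hr : ∀ x t, |gg N c (u x t) - c 1 * u x t| ≤ h |u x t|)
    (hcrit : ∀ x t, η * κ * (|u x t| * h |u x t|) ≤
      η * u x t ^ 2 + (u x t * gg N c (u x t) - 2 * GG N c (u x t))) :
    ∀ x t, u x t = 0 := by
  rcases hκ with h0 | ⟨hs, a, ha⟩ | ⟨h1, h2, h3⟩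
  · refine hu.star hT fun x t => ?_
    have := hcrit x t
    rw [h0] at this
    linarith
  · have hc : 0 < c 1 := by
      by_contra hc
      rw [Real.sqrt_eq_zero_of_nonpos (not_lt.1 hc)] at hs
      simp at hs
    refine crit_kernel hN hu hT hc (Or.inl ⟨a, hs, ?_⟩) hη hηκ hh hm hr hcrit
    rw [ha]
    refine intervalIntegral.integral_congr fun s _ => ?_
    have hμ : 0 < √(c 1) := Real.sqrt_pos.2 hc
    rw [abs_div, abs_mul, abs_of_pos (by positivity : 0 < 2 * √(c 1))]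
  · have hc : 0 < c 1 := by
      by_contra hc
      rw [Real.sqrt_eq_zero_of_nonpos (not_lt.1 hc)] at h1
      have := Real.pi_pos
      linarith
    exact crit_kernel hN hu hT hc (Or.inr ⟨h1, h2, h3⟩) hη hηκ hh hm hr hcrit

end H93.Br
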